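import Mathlib

open MeasureTheory Set Filter Topology
open scoped ENNReal

namespace Pool.Agent.Results.MP_eb43e0_pr.TwoMarkovLimits

/-! ### The Skorokhod space -/

/-- The time interval `[0,1]`. -/
abbrev Time : Type := Set.Icc (0:ℝ) 1

/-- `f` is right-continuous with left limits. -/
def IsCadlag (f : Time → ℝ) : Prop :=
  ∀ t : Time, ContinuousWithinAt f (Set.Ioi t) t ∧ ∃ l : ℝ, Tendsto f (𝓝[<] t) (𝓝 l)

/-- The set `D([0,1])` of real right-continuous paths with left limits on `[0,1]`. -/
def D : Type := {f : Time → ℝ // IsCadlag f}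

/-- After a time change `l` which moves no time by `ε` or more, `g` is `ε`-close to `f`. -/
def SkorokhodClose (ε : ℝ) (f g : D) : Prop :=
  ∃ l : Time ≃o Time, (∀ t : Time, |((l t : Time) : ℝ) - (t : ℝ)| < ε) ∧
    ∀ t : Time, |g.1 (l t) - f.1 t| < ε

theorem SkorokhodClose.mono {ε δ : ℝ} {f g : D} (h : SkorokhodClose ε f g) (hεδ : ε ≤ δ) :
    SkorokhodClose δ f g := by
  obtain ⟨l, h1, h2⟩ := h
  exact ⟨l, fun t => (h1 t).trans_le hεδ, fun t => (h2 t).trans_le hεδ⟩

/-- The Skorokhod topology on `D([0,1])`. -/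
instance instTopD : TopologicalSpace D where
  IsOpen U := ∀ f ∈ U, ∃ ε : ℝ, 0 < ε ∧ ∀ g : D, SkorokhodClose ε f g → g ∈ U
  isOpen_univ := fun _ _ => ⟨1, one_pos, fun _ _ => mem_univ _⟩
  isOpen_inter := by
    intro U V hU hV f hf
    obtain ⟨e1, he1, h1⟩ := hU f hf.1
    obtain ⟨e2, he2, h2⟩ := hV f hf.2
    exact ⟨min e1 e2, lt_min he1 he2, fun g hg =>
      ⟨h1 g (hg.mono (min_le_left _ _)), h2 g (hg.mono (min_le_right _ _))⟩⟩
  isOpen_sUnion := by
    intro S hS f hf
    obtain ⟨U, hU, hfU⟩ := hf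
    obtain ⟨e, he, h⟩ := hS U hU f hfU
    exact ⟨e, he, fun g hg => ⟨U, hU, h g hg⟩⟩

theorem isOpen_D_iff (U : Set D) :
    IsOpen U ↔ ∀ f ∈ U, ∃ ε : ℝ, 0 < ε ∧ ∀ g : D, SkorokhodClose ε f g → g ∈ U := Iff.rfl

/-- The Borel sigma-algebra of the Skorokhod topology. -/
instance instMeasD : MeasurableSpace D := borel D

instance instBorelD : BorelSpace D := ⟨rfl⟩

/-- The canonical process. -/
def X (t : Time) (f : D) : ℝ := f.1 t

/-- The sigma-algebra of the past: generated by `X_r`, `r ≤ s`. -/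
@[instance_reducible] def past (s : Time) : MeasurableSpace D :=
  MeasurableSpace.comap (fun (f : D) (r : Set.Iic s) => X r.1 f) MeasurableSpace.pi

/-- The sigma-algebra generated by `X_s`. -/
@[instance_reducible] def present (s : Time) : MeasurableSpace D := MeasurableSpace.comap (X s) (borel ℝ)

/-- The canonical process is a Markov process under `P`. -/
def IsMarkov (P : ProbabilityMeasure D) : Prop :=
  ∀ s t : Time, s ≤ t → ∀ B : Set ℝ, MeasurableSet B →
    (P : Measure D)[(X t ⁻¹' B).indicator (fun _ => (1:ℝ)) | past s] =ᵐ[(P : Measure D)]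
    (P : Measure D)[(X t ⁻¹' B).indicator (fun _ => (1:ℝ)) | present s]

/-! ### Convex order, shadows, left-curtain couplings, peacocks -/

/-- Convex order between finite measures with finite first moment. -/
def ConvexLE (α η : Measure ℝ) : Prop :=
  ∀ f : ℝ → ℝ, ConvexOn ℝ univ f → Integrable f α → Integrable f η → ∫ x, f x ∂α ≤ ∫ x, f x ∂η

/-- `η` is the shadow of `α` in `ν`. -/
structure IsShadow (ν α η : Measure ℝ) : Prop where
  le : η ≤ ν
  convex : ConvexLE α η
  least : ∀ η' : Measure ℝ, η' ≤ ν → ConvexLE α η' → ConvexLE η η'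

/-- `π` is the left-curtain coupling of `μ` and `ν`. -/
structure IsCurtain (μ ν : Measure ℝ) (π : Measure (ℝ × ℝ)) : Prop where
  fst : π.map Prod.fst = μ
  snd : π.map Prod.snd = ν
  martingale : π[Prod.snd | MeasurableSpace.comap Prod.fst (borel ℝ)] =ᵐ[π] Prod.fst
  shadow : ∀ x : ℝ, IsShadow ν (μ.restrict (Iic x)) ((π.restrict (Iic x ×ˢ univ)).map Prod.snd)

/-- The Kantorovich distance. -/
noncomputable def kantorovich (μ ν : Measure ℝ) : ℝ≥0∞ :=
  ⨅ (π : Measure (ℝ × ℝ)) (_ : π.map Prod.fst = μ ∧ π.map Prod.snd = ν), ∫⁻ z, edist z.1 z.2 ∂π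

/-- A peacock: a family of probability measures with finite first moment, increasing in the
convex order. -/
structure IsPeacock (μ : Time → Measure ℝ) : Prop where
  prob : ∀ t, IsProbabilityMeasure (μ t)
  moment : ∀ t, Integrable (fun x : ℝ => x) (μ t)
  mono : ∀ s t, s ≤ t → ConvexLE (μ s) (μ t)

/-- Right-continuity for the Kantorovich distance. -/
def IsRightCont (μ : Time → Measure ℝ) : Prop :=
  ∀ t : Time, Tendsto (fun s => kantorovich (μ s) (μ t)) (𝓝[>] t) (𝓝 0)

/-- A partition `0 = t_0 < ... < t_Q = 1`. -/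
structure Partition where
  Q : ℕ
  pt : Fin (Q + 1) → Time
  mono : StrictMono pt
  first : ((pt 0 : Time) : ℝ) = 0
  last : ((pt (Fin.last Q) : Time) : ℝ) = 1

/-- `P` is the law `P^{μ,σ}`. -/
structure IsCurtainLaw (μ : Time → Measure ℝ) (σ : Partition) (P : ProbabilityMeasure D) :
    Prop where
  markov : IsMarkov P
  const : ∀ k : Fin σ.Q, ∀ᵐ f ∂(P : Measure D), ∀ t ∈ Ico (σ.pt k.castSucc) (σ.pt k.succ),
    X t f = X (σ.pt k.castSucc) f
  curtain : ∀ k : Fin σ.Q, IsCurtain (μ (σ.pt k.castSucc)) (μ (σ.pt k.succ))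
    ((P : Measure D).map (fun f => (X (σ.pt k.castSucc) f, X (σ.pt k.succ) f)))

/-- The set `LimCurt([μ])` of all weak limits of `P^{μ,σ}` along sequences of partitions whose
mesh tends to `0`. -/
def LimCurt (μ : Time → Measure ℝ) : Set (ProbabilityMeasure D) :=
  {P | ∃ (σ : ℕ → Partition) (R : ℕ → ProbabilityMeasure D),
    (∀ ε : ℝ, 0 < ε → ∀ᶠ p in atTop, ∀ k : Fin (σ p).Q,
      (((σ p).pt k.succ : Time) : ℝ) - (((σ p).pt k.castSucc : Time) : ℝ) < ε) ∧
    (∀ p, IsCurtainLaw μ (σ p) (R p)) ∧ Tendsto R atTop (𝓝 P)}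

/-! ### Evaluations are Borel -/

theorem isOpen_exists_gt (t : Time) (s : Time) (a : ℝ) :
    IsOpen {f : D | ∃ r ∈ Ioo t s, a < X r f} := by
  rw [isOpen_D_iff]
  rintro f ⟨r, ⟨hr1, hr2⟩, hra⟩
  have h1 : 0 < (r:ℝ) - t := sub_pos.2 hr1
  have h2 : 0 < (s:ℝ) - r := sub_pos.2 hr2
  have h3 : 0 < X r f - a := sub_pos.2 hra
  refine ⟨min (min ((r:ℝ) - t) ((s:ℝ) - r)) (X r f - a), lt_min (lt_min h1 h2) h3, ?_⟩
  rintro g ⟨l, hl, hg⟩
  refine ⟨l r, ⟨?_, ?_⟩, ?_⟩
  · have := (hl r).trans_le ((min_le_left _ _).trans (min_le_left _ _))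
    rw [abs_lt] at this
    show (t:ℝ) < (l r : Time)
    linarith [this.1]
  · have := (hl r).trans_le ((min_le_left _ _).trans (min_le_right _ _))
    rw [abs_lt] at this
    show ((l r : Time) : ℝ) < s
    linarith [this.2]
  · have := (hg r).trans_le (min_le_right _ _)
    rw [abs_lt] at this
    have h4 := this.1
    simp only [X] at h4 ⊢
    linarith

theorem isOpen_top_gt (a : ℝ) : IsOpen {f : D | a < X (⟨1, by simp⟩ : Time) f} := by
  rw [isOpen_D_iff]
  intro f hf
  have h3 : 0 < X (⟨1, by simp⟩ : Time) f - a := sub_pos.2 hf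
  refine ⟨_, h3, ?_⟩
  rintro g ⟨l, hl, hg⟩
  have htop : l (⟨1, by simp⟩ : Time) = (⟨1, by simp⟩ : Time) := l.map_top
  have := hg (⟨1, by simp⟩ : Time)
  rw [htop, abs_lt] at this
  have h4 := this.1
  simp only [X, Set.mem_ofPred_eq] at h4 ⊢
  linarith

theorem measurable_X (t : Time) : Measurable (X t) := by
  by_cases ht : t = (⟨1, by simp⟩ : Time)
  · subst ht
    apply measurable_of_Ioi
    intro a
    exact (isOpen_top_gt a).measurableSet
  · have ht1 : (t:ℝ) < 1 := by
      rcases lt_or_eq_of_le t.2.2 with h | h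
      · exact h
      · exact absurd (Subtype.ext h) ht
    -- approximating times
    let e : ℕ → Time := fun n => ⟨min 1 ((t:ℝ) + 1 / ((n:ℝ) + 1)), by
      constructor
      · exact le_min zero_le_one (by have := t.2.1; positivity)
      · exact min_le_left _ _⟩
    have he : ∀ n, t < e n := by
      intro n
      show (t:ℝ) < min 1 ((t:ℝ) + 1 / ((n:ℝ) + 1))
      refine lt_min ht1 ?_
      have : (0:ℝ) < 1 / ((n:ℝ) + 1) := by positivity
      linarith
    apply measurable_of_Iio
    intro a
    have key : X t ⁻¹' Iio a =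
        ⋃ q : {q : ℚ // (q:ℝ) < a}, ⋃ n : ℕ, {f : D | ∃ r ∈ Ioo t (e n), (q:ℝ) < X r f}ᶜ := by
      ext f
      simp only [mem_preimage, mem_Iio, mem_iUnion, mem_compl_iff, Set.mem_ofPred_eq, not_exists,
        not_and, not_lt]
      constructor
      · intro hf
        obtain ⟨q, hq1, hq2⟩ := exists_rat_btwn hf
        refine ⟨⟨q, hq2⟩, ?_⟩
        have hc : ContinuousWithinAt f.1 (Set.Ioi t) t := (f.2 t).1
        have hev : ∀ᶠ r in 𝓝[>] t, f.1 r < q := hc.eventually (gt_mem_nhds hq1)
        rw [eventually_nhdsWithin_iff, Metric.eventually_nhds_iff] at hev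
        obtain ⟨ε, hε, hev⟩ := hev
        obtain ⟨n, hn⟩ := exists_nat_one_div_lt hε
        refine ⟨n, fun r hr => ?_⟩
        have h1 : (t:ℝ) < r := hr.1
        have h2 : (r:ℝ) < min 1 ((t:ℝ) + 1 / ((n:ℝ) + 1)) := hr.2
        have h3 : (r:ℝ) < (t:ℝ) + 1 / ((n:ℝ) + 1) := h2.trans_le (min_le_right _ _)
        refine (hev ?_ hr.1).le
        rw [Subtype.dist_eq, Real.dist_eq, abs_of_pos (by linarith)]
        linarith
      · rintro ⟨q, n, h⟩
        have hc : ContinuousWithinAt f.1 (Set.Ioi t) t := (f.2 t).1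
        have hne : (𝓝[>] t).NeBot := by
          have : (𝓝[Ioi t] t).NeBot := by
            apply mem_closure_iff_nhdsWithin_neBot.1
            rw [closure_Ioi' ⟨e 0, he 0⟩]
            exact self_mem_Ici
          exact this
        have hle : X t f ≤ q := by
          refine le_of_tendsto hc ?_
          have : Ioo t (e n) ∈ 𝓝[>] t := Ioo_mem_nhdsGT (he n)
          filter_upwards [this] with r hr
          exact h r hr
        exact hle.trans_lt q.2
    rw [key]
    exact MeasurableSet.iUnion fun q => MeasurableSet.iUnion fun n =>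
      (isOpen_exists_gt t (e n) q).measurableSet.compl

theorem present_le (s : Time) : present s ≤ instMeasD :=
  (measurable_X s).comap_le

theorem past_le (s : Time) : past s ≤ instMeasD := by
  apply Measurable.comap_le
  exact measurable_pi_lambda _ fun r => measurable_X r.1

theorem present_le_past (s : Time) : present s ≤ past s := by
  unfold present past
  rintro S ⟨B, hB, rfl⟩
  refine ⟨{w : Set.Iic s → ℝ | w ⟨s, self_mem_Iic⟩ ∈ B}, ?_, rfl⟩
  exact (measurable_pi_apply (⟨s, self_mem_Iic⟩ : Set.Iic s)) hB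

theorem mem_past_congr {s : Time} {S : Set D} (hS : MeasurableSet[past s] S) {f g : D}
    (hfg : ∀ r ≤ s, X r f = X r g) (hf : f ∈ S) : g ∈ S := by
  obtain ⟨S', -, rfl⟩ := hS
  have : (fun r : Set.Iic s => X r.1 f) = (fun r : Set.Iic s => X r.1 g) := by
    funext r
    exact hfg r.1 r.2
  simp only [mem_preimage] at hf ⊢
  rw [← this]
  exact hf

/-- A discrete family of paths which is Markov because `X_s` determines the past, unless `X_s = v`
in which case the future is determined. -/
theorem isMarkov_of_det {Ω : Type} [MeasurableSpace Ω] [Countable Ω] [DiscreteMeasurableSpace Ω]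
    (P0 : Measure Ω) [IsProbabilityMeasure P0] (x : Ω → D) (P : ProbabilityMeasure D)
    (hP : (P : Measure D) = P0.map x) (v : ℝ)
    (H1 : ∀ s t : Time, s < t → ∀ ω ω', X s (x ω) = X s (x ω') → X s (x ω) ≠ v →
      ∀ r ≤ s, X r (x ω) = X r (x ω'))
    (H2 : ∀ s t : Time, s < t → ∀ ω ω', X s (x ω) = v → X s (x ω') = v → X t (x ω) = X t (x ω')) :
    IsMarkov P := by
  have hx : Measurable x := Measurable.of_discrete
  intro s t hst B hB
  have hXB : MeasurableSet (X t ⁻¹' B) := (measurable_X t) hB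
  have hF : Integrable ((X t ⁻¹' B).indicator (fun _ => (1:ℝ))) (P : Measure D) :=
    (integrable_const (1:ℝ)).indicator hXB
  rcases eq_or_lt_of_le hst with rfl | hlt
  · have hB' : MeasurableSet[present s] (X s ⁻¹' B) := ⟨B, by
      rw [← BorelSpace.measurable_eq (α := ℝ)]; exact hB, rfl⟩
    have m1 : StronglyMeasurable[present s] ((X s ⁻¹' B).indicator (fun _ => (1:ℝ))) :=
      stronglyMeasurable_const.indicator hB'
    have m2 : StronglyMeasurable[past s] ((X s ⁻¹' B).indicator (fun _ => (1:ℝ))) :=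
      stronglyMeasurable_const.indicator (present_le_past s _ hB')
    rw [condExp_of_stronglyMeasurable (present_le s) m1 hF,
      condExp_of_stronglyMeasurable (past_le s) m2 hF]
  · set F : D → ℝ := (X t ⁻¹' B).indicator (fun _ => (1:ℝ)) with hFdef
    set V : Set D := X s ⁻¹' {v} with hV
    have hVm : MeasurableSet V := (measurable_X s) (measurableSet_singleton v)
    have hVp : MeasurableSet[present s] V := ⟨{v}, by
      rw [← BorelSpace.measurable_eq (α := ℝ)]; exact measurableSet_singleton v, rfl⟩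
    -- the future is constant on V
    obtain ⟨b, hb⟩ : ∃ b : ℝ, ∀ ω, X s (x ω) = v → F (x ω) = b := by
      by_cases hne : ∃ ω, X s (x ω) = v
      · obtain ⟨ω₀, h0⟩ := hne
        refine ⟨F (x ω₀), fun ω hω => ?_⟩
        have := H2 s t hlt ω ω₀ hω h0
        have hmem : x ω ∈ X t ⁻¹' B ↔ x ω₀ ∈ X t ⁻¹' B := by
          rw [mem_preimage, mem_preimage, this]
        by_cases hm : x ω ∈ X t ⁻¹' B
        · rw [hFdef, indicator_of_mem hm, indicator_of_mem (hmem.1 hm)]
        · rw [hFdef, indicator_of_notMem hm, indicator_of_notMem (fun h' => hm (hmem.2 h'))]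
      · exact ⟨0, fun ω hω => absurd ⟨ω, hω⟩ hne⟩
    have hae : ∀ (p : D → Prop), MeasurableSet {f | p f} → (∀ ω, p (x ω)) →
        ∀ᵐ f ∂(P : Measure D), p f := by
      intro p hp h
      rw [hP, ae_map_iff hx.aemeasurable hp]
      exact Filter.Eventually.of_forall h
    have hFm : Measurable F := measurable_const.indicator hXB
    have hFV : V.indicator F =ᵐ[(P : Measure D)] V.indicator (fun _ => b) := by
      refine hae (fun f => V.indicator F f = V.indicator (fun _ => b) f) ?_ ?_
      · exact measurableSet_eq_fun (hFm.indicator hVm) (measurable_const.indicator hVm)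
      · intro ω
        by_cases h : x ω ∈ V
        · rw [indicator_of_mem h, indicator_of_mem h]
          exact hb ω h
        · rw [indicator_of_notMem h, indicator_of_notMem h]
    set h : D → ℝ := (P : Measure D)[F | present s] with hh
    have hhV : V.indicator h =ᵐ[(P : Measure D)] V.indicator (fun _ => b) := by
      have e1 : (P : Measure D)[V.indicator F | present s] =ᵐ[(P : Measure D)] V.indicator h :=
        condExp_indicator hF hVp
      have e2 : (P : Measure D)[V.indicator F | present s] =ᵐ[(P : Measure D)]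
          (P : Measure D)[V.indicator (fun _ => b) | present s] := condExp_congr_ae hFV
      have e3 : (P : Measure D)[V.indicator (fun _ => b) | present s] = V.indicator (fun _ => b) :=
        condExp_of_stronglyMeasurable (present_le s) (stronglyMeasurable_const.indicator hVp)
          ((integrable_const b).indicator hVm)
      rw [e3] at e2
      exact e1.symm.trans e2
    have hhF : ∀ᵐ f ∂(P : Measure D), f ∈ V → h f = F f := by
      filter_upwards [hhV, hFV] with f h1 h2 hf
      rw [indicator_of_mem hf, indicator_of_mem hf] at h1 h2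
      rw [h1, h2]
    symm
    refine ae_eq_condExp_of_forall_setIntegral_eq (past_le s) hF
      (fun S _ _ => integrable_condExp.integrableOn) ?_ ?_
    · intro S hS _
      have hSm : MeasurableSet S := past_le s _ hS
      have hhI : Integrable h (P : Measure D) := integrable_condExp
      rw [← integral_inter_add_sdiff hVm hhI.integrableOn,
        ← integral_inter_add_sdiff (f := F) hVm hF.integrableOn]
      congr 1
      · apply setIntegral_congr_ae (hSm.inter hVm)
        filter_upwards [hhF] with f hf hfS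
        exact hf hfS.2
      · set W : Set ℝ := {w | w ≠ v ∧ ∃ ω, X s (x ω) = w ∧ x ω ∈ S} with hW
        have hWc : W.Countable := by
          apply (countable_range (fun ω => X s (x ω))).mono
          rintro w ⟨-, ω, hω, -⟩
          exact ⟨ω, hω⟩
        have hWm : MeasurableSet W := hWc.measurableSet
        have hT : MeasurableSet[present s] (X s ⁻¹' W) := ⟨W, by
          rw [← BorelSpace.measurable_eq (α := ℝ)]; exact hWm, rfl⟩
        have hST : (S \ V : Set D) =ᵐ[(P : Measure D)] (X s ⁻¹' W : Set D) := by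
          have : ∀ᵐ f ∂(P : Measure D), (f ∈ S \ V ↔ f ∈ X s ⁻¹' W) := by
            refine hae (fun f => (f ∈ S \ V ↔ f ∈ X s ⁻¹' W)) ?_ ?_
            · have m1 : MeasurableSet (S \ V) := hSm.diff hVm
              have m2 : MeasurableSet (X s ⁻¹' W) := (measurable_X s) hWm
              have : {f | (f ∈ S \ V ↔ f ∈ X s ⁻¹' W)} =
                  ((S \ V) ∩ (X s ⁻¹' W)) ∪ ((S \ V)ᶜ ∩ (X s ⁻¹' W)ᶜ) := by
                ext f
                simp only [Set.mem_ofPred_eq, mem_union, mem_inter_iff, mem_compl_iff]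
                tauto
              rw [this]
              exact (m1.inter m2).union (m1.compl.inter m2.compl)
            · intro ω
              constructor
              · rintro ⟨hS', hV'⟩
                exact ⟨hV', ω, rfl, hS'⟩
              · rintro ⟨hne, ω', hω', hS'⟩
                refine ⟨?_, hne⟩
                exact mem_past_congr hS (H1 s t hlt ω' ω hω' (by rw [hω']; exact hne)) hS'
          filter_upwards [this] with f hf
          exact propext hf
        rw [setIntegral_congr_set hST, setIntegral_congr_set (f := F) hST]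
        exact setIntegral_condExp (present_le s) hF hT
    · exact (stronglyMeasurable_condExp.mono (present_le_past s)).aestronglyMeasurable

/-! ### Finite sums of point masses -/

/-- The point mass of weight `p` at `x`. -/
noncomputable def pm {α : Type} [MeasurableSpace α] (p : ℝ) (x : α) : Measure α :=
  ENNReal.ofReal p • Measure.dirac x

section pm

variable {α : Type} [MeasurableSpace α]

theorem integrable_pm [MeasurableSingletonClass α] (p : ℝ) (x : α) (f : α → ℝ) : Integrable f (pm p x) :=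
  (integrable_dirac (by simp)).smul_measure ENNReal.ofReal_ne_top

theorem integral_pm [MeasurableSingletonClass α] {p : ℝ} (hp : 0 ≤ p) (x : α) (f : α → ℝ) : ∫ y, f y ∂(pm p x) = p * f x := by
  rw [pm, integral_smul_measure, integral_dirac, ENNReal.toReal_ofReal hp, smul_eq_mul]

theorem pm_add {p q : ℝ} (hp : 0 ≤ p) (hq : 0 ≤ q) (x : α) : pm p x + pm q x = pm (p + q) x := by
  rw [pm, pm, pm, ENNReal.ofReal_add hp hq, add_smul]

theorem pm_zero (x : α) : pm 0 x = 0 := by simp [pm]

theorem restrict_pm_mem {p : ℝ} {x : α} {S : Set α} (hx : x ∈ S) (hS : MeasurableSet S) :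
    (pm p x).restrict S = pm p x := by
  classical
  rw [pm, Measure.restrict_smul, restrict_dirac' hS, if_pos hx]

theorem restrict_pm_notMem {p : ℝ} {x : α} {S : Set α} (hx : x ∉ S) (hS : MeasurableSet S) :
    (pm p x).restrict S = 0 := by
  classical
  rw [pm, Measure.restrict_smul, restrict_dirac' hS, if_neg hx, smul_zero]

theorem map_pm {β : Type} [MeasurableSpace β] {g : α → β} (hg : Measurable g) (p : ℝ) (x : α) :
    (pm p x).map g = pm p (g x) := by
  rw [pm, Measure.map_smul, Measure.map_dirac' hg, pm]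

theorem pm_univ {p : ℝ} (x : α) : (pm p x) univ = ENNReal.ofReal p := by
  simp [pm]

end pm

/-- The mass carried by an atom located at `a`. -/
noncomputable def w (a : ℝ) : ℝ := 1 / (4 * (1 - a))

theorem w_mul {a : ℝ} (ha : a < 1) : w a * (1 - a) = 1 / 4 := by
  have : 1 - a ≠ 0 := by linarith
  rw [w]; field_simp

theorem w_pos {a : ℝ} (ha : a < 1) : 0 < w a := by
  have : 0 < 1 - a := by linarith
  rw [w]; positivity

theorem w_mono {a a' : ℝ} (h : a' ≤ a) (ha : a < 1) : w a' ≤ w a := by
  rw [w, w]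
  apply one_div_le_one_div_of_le
  · linarith
  · linarith

/-- The measure with atoms at `a` and `b` of the canonical masses, and the rest of the unit mass
at `1`. -/
noncomputable def M (a b : ℝ) : Measure ℝ := pm (w a) a + pm (w b) b + pm (1 - w a - w b) 1

theorem integrable_M (a b : ℝ) (f : ℝ → ℝ) : Integrable f (M a b) :=
  ((integrable_pm _ _ f).add_measure (integrable_pm _ _ f)).add_measure (integrable_pm _ _ f)

theorem integral_M {a b : ℝ} (ha : a < 1) (hb : b < 1) (h : w a + w b ≤ 1) (f : ℝ → ℝ) :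
    ∫ x, f x ∂(M a b) = w a * f a + w b * f b + (1 - w a - w b) * f 1 := by
  rw [M, integral_add_measure ((integrable_pm _ _ f).add_measure (integrable_pm _ _ f))
    (integrable_pm _ _ f), integral_add_measure (integrable_pm _ _ f) (integrable_pm _ _ f),
    integral_pm (w_pos ha).le, integral_pm (w_pos hb).le, integral_pm (by linarith)]

theorem isProb_M {a b : ℝ} (ha : a < 1) (hb : b < 1) (h : w a + w b ≤ 1) :
    IsProbabilityMeasure (M a b) := by
  constructor
  rw [M, Measure.add_apply, Measure.add_apply, pm_univ, pm_univ, pm_univ,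
    ← ENNReal.ofReal_add (w_pos ha).le (w_pos hb).le,
    ← ENNReal.ofReal_add (add_nonneg (w_pos ha).le (w_pos hb).le) (by linarith)]
  rw [← ENNReal.ofReal_one]
  congr 1
  ring

theorem shadow_self {ν α : Measure ℝ} (h : α ≤ ν) : IsShadow ν α α :=
  ⟨h, fun _ _ _ _ => le_rfl, fun _ _ h2 => h2⟩

/-- Splitting an atom at `a` to `a'` and `1`. -/
theorem split_le {a a' : ℝ} (h : a' ≤ a) (ha : a < 1) {f : ℝ → ℝ} (hf : ConvexOn ℝ univ f) :
    w a * f a ≤ w a' * f a' + (w a - w a') * f 1 := by
  have hw : 0 < w a := w_pos ha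
  have hw' : 0 < w a' := w_pos (h.trans_lt ha)
  have hm : w a' ≤ w a := w_mono h ha
  have e1 := w_mul ha
  have e2 := w_mul (h.trans_lt ha)
  have q1 : 0 ≤ w a' / w a := by positivity
  have q2 : 0 ≤ 1 - w a' / w a := by
    rw [sub_nonneg, div_le_one hw]; exact hm
  have hc := hf.2 (mem_univ a') (mem_univ 1) q1 q2 (by ring)
  simp only [smul_eq_mul] at hc
  have e3 : w a' / w a * a' + (1 - w a' / w a) * 1 = a := by
    field_simp
    nlinarith
  rw [e3] at hc
  have := mul_le_mul_of_nonneg_left hc hw.le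
  calc w a * f a ≤ w a * (w a' / w a * f a' + (1 - w a' / w a) * f 1) := this
    _ = w a' * f a' + (w a - w a') * f 1 := by field_simp

/-- Integrals against a measure below `M a' b'`. -/
theorem integral_of_le_M {a b : ℝ} (hba : b < a) (ha : a < 1) (h : w a + w b ≤ 1)
    {η : Measure ℝ} (hη : η ≤ M a b) :
    ∃ e1 e2 e3 : ℝ, 0 ≤ e1 ∧ 0 ≤ e2 ∧ 0 ≤ e3 ∧ e1 ≤ w b ∧ e2 ≤ w a ∧
      (∀ f : ℝ → ℝ, Integrable f η) ∧
      ∀ f : ℝ → ℝ, ∫ x, f x ∂η = e1 * f b + e2 * f a + e3 * f 1 := by
  have hb : b < 1 := hba.trans ha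
  have hP := isProb_M ha hb h
  have hfin : IsFiniteMeasure η := ⟨(hη univ).trans_lt (measure_lt_top _ _)⟩
  have hMc : M a b ({b, a, 1} : Set ℝ)ᶜ = 0 := by
    have hms : MeasurableSet ({b, a, 1} : Set ℝ)ᶜ := (Set.toFinite _).measurableSet.compl
    simp [M, pm, Measure.add_apply, Measure.smul_apply, Measure.dirac_apply' _ hms]
  have hηc : η ({b, a, 1} : Set ℝ)ᶜ = 0 := le_antisymm ((hη _).trans hMc.le) bot_le
  have hres : η.restrict ({b, a, 1} : Set ℝ) = η := by
    apply Measure.restrict_eq_self_of_ae_mem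
    rw [ae_iff]
    exact hηc
  have hba' : b ≠ a := hba.ne
  have hb1 : b ≠ 1 := hb.ne
  have ha1 : a ≠ 1 := ha.ne
  have hMb : (M a b).real {b} = w b := by
    have hms : MeasurableSet ({b} : Set ℝ) := measurableSet_singleton b
    rw [measureReal_def]
    simp [M, pm, Measure.add_apply, Measure.smul_apply, Measure.dirac_apply' _ hms, hba'.symm,
      hb1.symm, (w_pos hb).le]
  have hMa : (M a b).real {a} = w a := by
    have hms : MeasurableSet ({a} : Set ℝ) := measurableSet_singleton a
    rw [measureReal_def]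
    simp [M, pm, Measure.add_apply, Measure.smul_apply, Measure.dirac_apply' _ hms, hba',
      ha1.symm, (w_pos ha).le]
  refine ⟨η.real {b}, η.real {a}, η.real {1}, measureReal_nonneg, measureReal_nonneg,
    measureReal_nonneg, ?_, ?_, ?_, ?_⟩
  · rw [← hMb]
    exact ENNReal.toReal_mono (measure_ne_top _ _) (hη _)
  · rw [← hMa]
    exact ENNReal.toReal_mono (measure_ne_top _ _) (hη _)
  · intro f
    exact (integrable_M a b f).mono_measure hη
  · intro f
    have hf : Integrable f η := (integrable_M a b f).mono_measure hη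
    have hfin3 : ((({b, a, 1} : Finset ℝ)) : Set ℝ) = ({b, a, 1} : Set ℝ) := by simp
    have := setIntegral_finset (μ := η) (f := f) ({b, a, 1} : Finset ℝ)
      (by rw [hfin3]; exact hf.integrableOn)
    rw [hfin3, hres] at this
    rw [this, Finset.sum_insert (by simp [hba', hb1]), Finset.sum_insert (by simp [ha1]),
      Finset.sum_singleton]
    simp only [smul_eq_mul]
    ring

theorem convexLE_mass {α η : Measure ℝ} (hα : ∀ f : ℝ → ℝ, Integrable f α)
    (hη : ∀ f : ℝ → ℝ, Integrable f η) (h : ConvexLE α η) (p q : ℝ) :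
    ∫ x, (p * x + q) ∂α = ∫ x, (p * x + q) ∂η := by
  have key : ∀ p q : ℝ, ∫ x, (p * x + q) ∂α ≤ ∫ x, (p * x + q) ∂η := by
    intro p q
    apply h _ _ (hα _) (hη _)
    refine ⟨convex_univ, ?_⟩
    intro x _ y _ s t _ _ hst
    simp only [smul_eq_mul]
    have : q = (s + t) * q := by rw [hst, one_mul]
    nlinarith
  apply le_antisymm (key p q)
  have := key (-p) (-q)
  have e1 : ∀ x : ℝ, -p * x + -q = -(p * x + q) := fun x => by ring
  simp only [e1, integral_neg] at this
  linarith

theorem pm_mono {p q : ℝ} (h : p ≤ q) (x : ℝ) : pm p x ≤ pm q x := by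
  rw [pm, pm]
  intro S
  rw [Measure.smul_apply, Measure.smul_apply, smul_eq_mul, smul_eq_mul]
  gcongr

/-- If all the mass available at the two lower atoms must be used then the shadow is forced. -/
theorem integral_forced {a b A : ℝ} (hba : b < a) (ha : a < 1) (h : w a + w b ≤ 1)
    {α η : Measure ℝ} (hα : ∀ f : ℝ → ℝ, Integrable f α) (hA : ∫ _, (1:ℝ) ∂α = A)
    (hK : ∫ x, x ∂α = A - 1 / 2) (hη : η ≤ M a b) (hc : ConvexLE α η) (f : ℝ → ℝ) :
    ∫ x, f x ∂η = w a * f a + w b * f b + (A - w a - w b) * f 1 := by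
  obtain ⟨e1, e2, e3, h1, h2, h3, hb, ha', hint, hf⟩ := integral_of_le_M hba ha h hη
  have m1 := convexLE_mass hα hint hc 0 1
  have m2 := convexLE_mass hα hint hc 1 0
  simp only [zero_mul, zero_add, one_mul, add_zero] at m1 m2
  rw [hA, hf] at m1
  rw [hK, hf] at m2
  have wa := w_mul ha
  have wb := w_mul (hba.trans ha)
  have q1 : 0 < 1 - a := by linarith
  have q2 : 0 < 1 - b := by linarith
  have hsum : (w b - e1) * (1 - b) + (w a - e2) * (1 - a) = 0 := by linarith
  have z1 : 0 ≤ (w b - e1) * (1 - b) := mul_nonneg (by linarith) q2.le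
  have z2 : 0 ≤ (w a - e2) * (1 - a) := mul_nonneg (by linarith) q1.le
  have y1 : (w b - e1) * (1 - b) = 0 := by linarith
  have y2 : (w a - e2) * (1 - a) = 0 := by linarith
  have x1 : e1 = w b := by
    rcases mul_eq_zero.1 y1 with h | h <;> linarith
  have x2 : e2 = w a := by
    rcases mul_eq_zero.1 y2 with h | h <;> linarith
  have x3 : e3 = A - w a - w b := by linarith
  rw [hf, x1, x2, x3]
  ring

/-- The coupling which keeps the order of the two atoms. -/
noncomputable def Cpl (a a' b b' : ℝ) : Measure (ℝ × ℝ) :=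
  pm (w a') (a, a') + pm (w a - w a') (a, 1) + pm (w b') (b, b') + pm (w b - w b') (b, 1) +
    pm (1 - w a - w b) (1, 1)

theorem integrable_Cpl (a a' b b' : ℝ) (f : ℝ × ℝ → ℝ) : Integrable f (Cpl a a' b b') :=
  ((((integrable_pm _ _ f).add_measure (integrable_pm _ _ f)).add_measure
    (integrable_pm _ _ f)).add_measure (integrable_pm _ _ f)).add_measure (integrable_pm _ _ f)

theorem integral_add5 {α : Type} [MeasurableSpace α] {m1 m2 m3 m4 m5 : Measure α} {f : α → ℝ}
    (h1 : Integrable f m1) (h2 : Integrable f m2) (h3 : Integrable f m3) (h4 : Integrable f m4)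
    (h5 : Integrable f m5) :
    ∫ x, f x ∂(m1 + m2 + m3 + m4 + m5) =
      ∫ x, f x ∂m1 + ∫ x, f x ∂m2 + ∫ x, f x ∂m3 + ∫ x, f x ∂m4 + ∫ x, f x ∂m5 := by
  rw [integral_add_measure (((h1.add_measure h2).add_measure h3).add_measure h4) h5,
    integral_add_measure ((h1.add_measure h2).add_measure h3) h4,
    integral_add_measure (h1.add_measure h2) h3, integral_add_measure h1 h2]

theorem curtain_Cpl {a a' b b' : ℝ} (h1 : b' < a') (h2 : a' ≤ a) (h3 : a < b) (h4 : b < 1)
    (h : w a + w b ≤ 1) : IsCurtain (M a b) (M a' b') (Cpl a a' b b') := by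
  have ha : a < 1 := h3.trans h4
  have ha' : a' < 1 := h2.trans_lt ha
  have hb' : b' < 1 := h1.trans ha'
  have hb'b : b' ≤ b := by linarith
  have p1 := (w_pos ha).le
  have p2 := (w_pos ha').le
  have p3 := (w_pos h4).le
  have p4 := (w_pos hb').le
  have n1 : 0 ≤ w a - w a' := sub_nonneg.2 (w_mono h2 ha)
  have n2 : 0 ≤ w b - w b' := sub_nonneg.2 (w_mono hb'b h4)
  have n3 : 0 ≤ 1 - w a - w b := by linarith
  have h' : w a' + w b' ≤ 1 := by linarith
  have k1 := w_mul ha
  have k2 := w_mul ha'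
  have k3 := w_mul h4
  have k4 := w_mul hb'
  have hfin : IsFiniteMeasure (Cpl a a' b b') := by
    have := integrable_Cpl a a' b b' (fun _ => 1)
    rw [integrable_const_iff] at this
    rcases this with h | h
    · exact absurd h one_ne_zero
    · exact h
  have hsnd : (Cpl a a' b b').map Prod.snd = M a' b' := by
    rw [Cpl, Measure.map_add _ _ measurable_snd, Measure.map_add _ _ measurable_snd,
      Measure.map_add _ _ measurable_snd, Measure.map_add _ _ measurable_snd,
      map_pm measurable_snd, map_pm measurable_snd, map_pm measurable_snd, map_pm measurable_snd,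
      map_pm measurable_snd, M]
    have e : pm (1 - w a' - w b') (1:ℝ) =
        pm (w a - w a') 1 + pm (w b - w b') 1 + pm (1 - w a - w b) 1 := by
      rw [pm_add n1 n2, pm_add (by linarith) n3]
      congr 1
      ring
    rw [e]
    abel
  refine ⟨?_, hsnd, ?_, ?_⟩
  · rw [Cpl, Measure.map_add _ _ measurable_fst, Measure.map_add _ _ measurable_fst,
      Measure.map_add _ _ measurable_fst, Measure.map_add _ _ measurable_fst,
      map_pm measurable_fst, map_pm measurable_fst, map_pm measurable_fst, map_pm measurable_fst,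
      map_pm measurable_fst, M]
    have e1 : pm (w a) a = pm (w a') a + pm (w a - w a') a := by
      rw [pm_add p2 n1]; congr 1; ring
    have e2 : pm (w b) b = pm (w b') b + pm (w b - w b') b := by
      rw [pm_add p4 n2]; congr 1; ring
    rw [e1, e2]
    abel
  · symm
    have hle : MeasurableSpace.comap (Prod.fst : ℝ × ℝ → ℝ) (borel ℝ) ≤ Prod.instMeasurableSpace := by
      rw [← BorelSpace.measurable_eq (α := ℝ)]
      exact measurable_fst.comap_le
    refine ae_eq_condExp_of_forall_setIntegral_eq hle (integrable_Cpl _ _ _ _ _)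
      (fun S _ _ => (integrable_Cpl _ _ _ _ _).integrableOn) ?_ ?_
    · intro S hS _
      have hSm : MeasurableSet S := hle _ hS
      obtain ⟨B, hB, rfl⟩ := hS
      rw [← integral_indicator hSm, ← integral_indicator hSm, Cpl,
        integral_add5 (integrable_pm _ _ _) (integrable_pm _ _ _) (integrable_pm _ _ _)
          (integrable_pm _ _ _) (integrable_pm _ _ _),
        integral_add5 (integrable_pm _ _ _) (integrable_pm _ _ _) (integrable_pm _ _ _)
          (integrable_pm _ _ _) (integrable_pm _ _ _),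
        integral_pm p2, integral_pm n1, integral_pm p4, integral_pm n2, integral_pm n3,
        integral_pm p2, integral_pm n1, integral_pm p4, integral_pm n2, integral_pm n3]
      have ind : ∀ (g : ℝ × ℝ → ℝ) (x y : ℝ), (Prod.fst ⁻¹' B).indicator g (x, y) =
          B.indicator (fun _ => (1:ℝ)) x * g (x, y) := by
        intro g x y
        by_cases hx : x ∈ B
        · rw [indicator_of_mem (by exact hx), indicator_of_mem hx, one_mul]
        · rw [indicator_of_notMem (by exact hx), indicator_of_notMem hx, zero_mul]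
      simp only [ind]
      have z1 : w a' * a' + (w a - w a') * 1 = w a * a := by linarith
      have z2 : w b' * b' + (w b - w b') * 1 = w b * b := by linarith
      linear_combination (-(B.indicator (fun _ => (1:ℝ)) a)) * z1 -
        (B.indicator (fun _ => (1:ℝ)) b) * z2
    · have : Measurable[MeasurableSpace.comap (Prod.fst : ℝ × ℝ → ℝ) (borel ℝ)]
          (Prod.fst : ℝ × ℝ → ℝ) := by
        intro S hS
        exact ⟨S, by rw [← BorelSpace.measurable_eq (α := ℝ)]; exact hS, rfl⟩
      exact (this.stronglyMeasurable).aestronglyMeasurable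
  · intro x
    have hIic : MeasurableSet (Iic x) := measurableSet_Iic
    have hS : MeasurableSet (Iic x ×ˢ (univ : Set ℝ)) := hIic.prod MeasurableSet.univ
    rcases lt_or_ge x a with hxa | hxa
    · have e1 : (M a b).restrict (Iic x) = 0 := by
        rw [M, Measure.restrict_add, Measure.restrict_add,
          restrict_pm_notMem (by simp only [mem_Iic]; linarith) hIic,
          restrict_pm_notMem (by simp only [mem_Iic]; linarith) hIic,
          restrict_pm_notMem (by simp only [mem_Iic]; linarith) hIic]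
        simp
      have e2 : (Cpl a a' b b').restrict (Iic x ×ˢ univ) = 0 := by
        rw [Cpl, Measure.restrict_add, Measure.restrict_add, Measure.restrict_add,
          Measure.restrict_add,
          restrict_pm_notMem (by simp only [mem_prod, mem_Iic]; rintro ⟨h, -⟩; linarith) hS,
          restrict_pm_notMem (by simp only [mem_prod, mem_Iic]; rintro ⟨h, -⟩; linarith) hS,
          restrict_pm_notMem (by simp only [mem_prod, mem_Iic]; rintro ⟨h, -⟩; linarith) hS,
          restrict_pm_notMem (by simp only [mem_prod, mem_Iic]; rintro ⟨h, -⟩; linarith) hS,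
          restrict_pm_notMem (by simp only [mem_prod, mem_Iic]; rintro ⟨h, -⟩; linarith) hS]
        simp
      rw [e1, e2, Measure.map_zero]
      exact shadow_self (Measure.zero_le _)
    rcases lt_or_ge x b with hxb | hxb
    · have e1 : (M a b).restrict (Iic x) = pm (w a) a := by
        rw [M, Measure.restrict_add, Measure.restrict_add,
          restrict_pm_mem (by simp only [mem_Iic]; linarith) hIic,
          restrict_pm_notMem (by simp only [mem_Iic]; linarith) hIic,
          restrict_pm_notMem (by simp only [mem_Iic]; linarith) hIic]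
        simp
      have e2 : (Cpl a a' b b').restrict (Iic x ×ˢ univ) =
          pm (w a') (a, a') + pm (w a - w a') (a, 1) := by
        rw [Cpl, Measure.restrict_add, Measure.restrict_add, Measure.restrict_add,
          Measure.restrict_add,
          restrict_pm_mem (by simp only [mem_prod, mem_Iic]; exact ⟨hxa, mem_univ _⟩) hS,
          restrict_pm_mem (by simp only [mem_prod, mem_Iic]; exact ⟨hxa, mem_univ _⟩) hS,
          restrict_pm_notMem (by simp only [mem_prod, mem_Iic]; rintro ⟨h, -⟩; linarith) hS,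
          restrict_pm_notMem (by simp only [mem_prod, mem_Iic]; rintro ⟨h, -⟩; linarith) hS,
          restrict_pm_notMem (by simp only [mem_prod, mem_Iic]; rintro ⟨h, -⟩; linarith) hS]
        simp
      rw [e1, e2, Measure.map_add _ _ measurable_snd, map_pm measurable_snd,
        map_pm measurable_snd]
      refine ⟨?_, ?_, ?_⟩
      · have e : M a' b' = (pm (w a') a' + pm (w a - w a') 1) +
            (pm (w b') b' + pm (1 - w a - w b') 1) := by
          have e3 : pm (1 - w a' - w b') (1:ℝ) = pm (w a - w a') 1 + pm (1 - w a - w b') 1 := by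
            rw [pm_add n1 (by linarith)]; congr 1; ring
          rw [M, e3]
          abel
        rw [e]
        exact Measure.le_add_right le_rfl
      · intro f hf _ _
        rw [integral_pm p1, integral_add_measure (integrable_pm _ _ _) (integrable_pm _ _ _),
          integral_pm p2, integral_pm n1]
        exact split_le h2 ha hf
      · intro η' hη' hc f hf _ _
        obtain ⟨e1, e2, e3, q1, q2, q3, hb, ha'', hint, hfI⟩ := integral_of_le_M h1 ha' h' hη'
        have m1 := convexLE_mass (fun f => integrable_pm _ _ f) hint hc 0 1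
        have m2 := convexLE_mass (fun f => integrable_pm _ _ f) hint hc 1 0
        simp only [zero_mul, zero_add, one_mul, add_zero] at m1 m2
        rw [hfI, integral_pm p1] at m1
        rw [hfI, integral_pm p1] at m2
        rw [hfI, integral_add_measure (integrable_pm _ _ _) (integrable_pm _ _ _),
          integral_pm p2, integral_pm n1]
        -- convexity between `b'` and `1`
        have r1 : 0 < 1 - b' := by linarith
        have r2 : 0 < 1 - a' := by linarith
        have hc1 : 0 ≤ (1 - a') / (1 - b') := by positivity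
        have hc2 : 0 ≤ 1 - (1 - a') / (1 - b') := by
          rw [sub_nonneg, div_le_one r1]; linarith
        have hcv := hf.2 (mem_univ b') (mem_univ 1) hc1 hc2 (by ring)
        simp only [smul_eq_mul] at hcv
        have e4 : (1 - a') / (1 - b') * b' + (1 - (1 - a') / (1 - b')) * 1 = a' := by
          field_simp; ring
        rw [e4] at hcv
        have hs : (w a' - e2) * (1 - a') = e1 * (1 - b') := by linarith
        have hnn : 0 ≤ w a' - e2 := by linarith
        have hmul := mul_le_mul_of_nonneg_left hcv hnn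
        have hs2 : (w a' - e2) * ((1 - a') / (1 - b')) = e1 := by
          rw [← mul_div_assoc, hs]; field_simp
        have e5 : (w a' - e2) * ((1 - a') / (1 - b') * f b' + (1 - (1 - a') / (1 - b')) * f 1) =
            e1 * f b' + (w a' - e2 - e1) * f 1 := by
          rw [← hs2]; ring
        rw [e5] at hmul
        have e6 : e3 = w a - e1 - e2 := by linarith
        rw [e6]
        linarith
    rcases lt_or_ge x 1 with hx1 | hx1
    · have e1 : (M a b).restrict (Iic x) = pm (w a) a + pm (w b) b := by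
        rw [M, Measure.restrict_add, Measure.restrict_add,
          restrict_pm_mem (by simp only [mem_Iic]; linarith) hIic,
          restrict_pm_mem (by simp only [mem_Iic]; linarith) hIic,
          restrict_pm_notMem (by simp only [mem_Iic]; linarith) hIic]
        simp
      have e2 : (Cpl a a' b b').restrict (Iic x ×ˢ univ) =
          pm (w a') (a, a') + pm (w a - w a') (a, 1) + pm (w b') (b, b') +
            pm (w b - w b') (b, 1) := by
        rw [Cpl, Measure.restrict_add, Measure.restrict_add, Measure.restrict_add,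
          Measure.restrict_add,
          restrict_pm_mem (by simp only [mem_prod, mem_Iic]; exact ⟨hxa, mem_univ _⟩) hS,
          restrict_pm_mem (by simp only [mem_prod, mem_Iic]; exact ⟨hxa, mem_univ _⟩) hS,
          restrict_pm_mem (by simp only [mem_prod, mem_Iic]; exact ⟨hxb, mem_univ _⟩) hS,
          restrict_pm_mem (by simp only [mem_prod, mem_Iic]; exact ⟨hxb, mem_univ _⟩) hS,
          restrict_pm_notMem (by simp only [mem_prod, mem_Iic]; rintro ⟨h, -⟩; linarith) hS]
        simp
      have e3 : ((Cpl a a' b b').restrict (Iic x ×ˢ univ)).map Prod.snd =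
          pm (w a') a' + pm (w b') b' + pm (w a + w b - w a' - w b') 1 := by
        rw [e2, Measure.map_add _ _ measurable_snd, Measure.map_add _ _ measurable_snd,
          Measure.map_add _ _ measurable_snd, map_pm measurable_snd,
          map_pm measurable_snd, map_pm measurable_snd, map_pm measurable_snd]
        have e : pm (w a + w b - w a' - w b') (1:ℝ) = pm (w a - w a') 1 + pm (w b - w b') 1 := by
          rw [pm_add n1 n2]; congr 1; ring
        rw [e]
        abel
      have e4 : ∀ f : ℝ → ℝ, ∫ x, f x ∂(pm (w a') a' + pm (w b') b' +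
          pm (w a + w b - w a' - w b') 1) =
          w a' * f a' + w b' * f b' + (w a + w b - w a' - w b') * f 1 := by
        intro f
        rw [integral_add_measure ((integrable_pm _ _ f).add_measure (integrable_pm _ _ f))
          (integrable_pm _ _ f), integral_add_measure (integrable_pm _ _ f) (integrable_pm _ _ f),
          integral_pm p2, integral_pm p4, integral_pm (by linarith)]
      have e5 : ∀ f : ℝ → ℝ, ∫ x, f x ∂(pm (w a) a + pm (w b) b) = w a * f a + w b * f b := by
        intro f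
        rw [integral_add_measure (integrable_pm _ _ f) (integrable_pm _ _ f),
          integral_pm p1, integral_pm p3]
      rw [e1, e3]
      refine ⟨?_, ?_, ?_⟩
      · rw [M]
        exact add_le_add le_rfl (pm_mono (by linarith) _)
      · intro f hf _ _
        rw [e4, e5]
        have s1 := split_le h2 ha hf
        have s2 := split_le hb'b h4 hf
        linarith
      · intro η' hη' hc f hf _ _
        rw [integral_forced (A := w a + w b) h1 ha' h' (fun f =>
          (integrable_pm _ _ f).add_measure (integrable_pm _ _ f)) (by rw [e5]; ring)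
          (by rw [e5]; linarith) hη' hc f, e4]
    · have e1 : (M a b).restrict (Iic x) = M a b := by
        rw [M, Measure.restrict_add, Measure.restrict_add,
          restrict_pm_mem (by simp only [mem_Iic]; linarith) hIic,
          restrict_pm_mem (by simp only [mem_Iic]; linarith) hIic,
          restrict_pm_mem (by simp only [mem_Iic]; linarith) hIic]
      have e2 : (Cpl a a' b b').restrict (Iic x ×ˢ univ) = Cpl a a' b b' := by
        rw [Cpl, Measure.restrict_add, Measure.restrict_add, Measure.restrict_add,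
          Measure.restrict_add,
          restrict_pm_mem (by simp only [mem_prod, mem_Iic]; exact ⟨hxa, mem_univ _⟩) hS,
          restrict_pm_mem (by simp only [mem_prod, mem_Iic]; exact ⟨hxa, mem_univ _⟩) hS,
          restrict_pm_mem (by simp only [mem_prod, mem_Iic]; exact ⟨hxb, mem_univ _⟩) hS,
          restrict_pm_mem (by simp only [mem_prod, mem_Iic]; exact ⟨hxb, mem_univ _⟩) hS,
          restrict_pm_mem (by simp only [mem_prod, mem_Iic]; exact ⟨hx1, mem_univ _⟩) hS]
      rw [e1, e2, hsnd]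
      refine ⟨le_rfl, ?_, ?_⟩
      · intro f hf _ _
        rw [integral_M ha h4 h, integral_M ha' hb' h']
        have s1 := split_le h2 ha hf
        have s2 := split_le hb'b h4 hf
        linarith
      · intro η' hη' hc f hf _ _
        rw [integral_forced (A := 1) h1 ha' h' (integrable_M a b) (by rw [integral_M ha h4 h]; ring)
          (by rw [integral_M ha h4 h]; linarith) hη' hc f, integral_M ha' hb' h']

/-- The identity coupling is a left-curtain coupling. -/
theorem curtain_id {a b : ℝ} (ha : a < 1) (hb : b < 1) (h : w a + w b ≤ 1) :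
    IsCurtain (M a b) (M a b) ((M a b).map (fun x => (x, x))) := by
  have hP := isProb_M ha hb h
  have hm : Measurable (fun x : ℝ => (x, x)) := by fun_prop
  have hfst : ((M a b).map (fun x => (x, x))).map Prod.fst = M a b := by
    rw [Measure.map_map measurable_fst hm]
    exact Measure.map_id
  have hsnd : ((M a b).map (fun x => (x, x))).map Prod.snd = M a b := by
    rw [Measure.map_map measurable_snd hm]
    exact Measure.map_id
  have hPm : IsProbabilityMeasure ((M a b).map (fun x => (x, x))) :=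
    Measure.isProbabilityMeasure_map hm.aemeasurable
  refine ⟨hfst, hsnd, ?_, ?_⟩
  · have hle : MeasurableSpace.comap (Prod.fst : ℝ × ℝ → ℝ) (borel ℝ) ≤ Prod.instMeasurableSpace := by
      rw [← BorelSpace.measurable_eq (α := ℝ)]
      exact measurable_fst.comap_le
    have hae : (Prod.snd : ℝ × ℝ → ℝ) =ᵐ[(M a b).map (fun x => (x, x))] Prod.fst := by
      have : ∀ᵐ z ∂((M a b).map (fun x => (x, x))), z.2 = z.1 := by
        rw [ae_map_iff hm.aemeasurable (measurableSet_eq_fun measurable_snd measurable_fst)]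
        exact Filter.Eventually.of_forall fun x => rfl
      exact this
    have hmeas : Measurable[MeasurableSpace.comap (Prod.fst : ℝ × ℝ → ℝ) (borel ℝ)]
        (Prod.fst : ℝ × ℝ → ℝ) := by
      intro S hS
      exact ⟨S, by rw [← BorelSpace.measurable_eq (α := ℝ)]; exact hS, rfl⟩
    have hint : Integrable (Prod.fst : ℝ × ℝ → ℝ) ((M a b).map (fun x => (x, x))) := by
      rw [integrable_map_measure measurable_fst.aestronglyMeasurable hm.aemeasurable]
      exact integrable_M _ _ _
    have e := condExp_of_stronglyMeasurable hle hmeas.stronglyMeasurable hint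
    exact (condExp_congr_ae hae).trans (Filter.EventuallyEq.of_eq e)
  · intro x
    have e : (((M a b).map (fun x => (x, x))).restrict (Iic x ×ˢ univ)).map Prod.snd =
        (M a b).restrict (Iic x) := by
      have hS : MeasurableSet (Iic x ×ˢ (univ : Set ℝ)) := measurableSet_Iic.prod MeasurableSet.univ
      rw [Measure.restrict_map hm hS, Measure.map_map measurable_snd hm]
      have e2 : (fun x : ℝ => (x, x)) ⁻¹' (Iic x ×ˢ univ) = Iic x := by
        ext y
        simp
      rw [e2]
      exact Measure.map_id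
    rw [e]
    exact shadow_self Measure.restrict_le_self

/-! ### The particles -/

/-- The positions. -/
noncomputable def c (j : ℕ) : ℝ := 1 / ((j:ℝ) + 2)

theorem w_c (j : ℕ) : w (c j) = 1 / 4 + 1 / (4 * ((j:ℝ) + 1)) := by
  have h1 : (j:ℝ) + 1 ≠ 0 := by positivity
  have h2 : (j:ℝ) + 2 ≠ 0 := by positivity
  have h3 : 1 - 1 / ((j:ℝ) + 2) = ((j:ℝ) + 1) / ((j:ℝ) + 2) := by field_simp; ring
  rw [w, c, h3]
  field_simp
  ring

/-- The weight of the particle which is absorbed from position `c m`. -/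
noncomputable def aw (m : ℕ) : ℝ := 1 / (4 * ((m:ℝ) + 1)) - 1 / (4 * ((m:ℝ) + 3))

theorem aw_nonneg (m : ℕ) : 0 ≤ aw m := by
  rw [aw, sub_nonneg]
  apply one_div_le_one_div_of_le (by positivity)
  linarith

theorem hasSum_aw (i : ℕ) : HasSum (fun n : ℕ => aw (i + 2 * n)) (1 / (4 * ((i:ℝ) + 1))) := by
  rw [hasSum_iff_tendsto_nat_of_nonneg (fun n => aw_nonneg _)]
  have hs : ∀ N : ℕ, ∑ n ∈ Finset.range N, aw (i + 2 * n) =
      1 / (4 * ((i:ℝ) + 1)) - 1 / (4 * ((i:ℝ) + 2 * N + 1)) := by
    intro N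
    induction N with
    | zero => simp
    | succ N ih =>
      rw [Finset.sum_range_succ, ih, aw]
      push_cast
      have e : (i:ℝ) + 2 * N + 3 = i + 2 * (N + 1) + 1 := by ring
      rw [e]
      ring
  simp only [hs]
  have : Tendsto (fun N : ℕ => 1 / (4 * ((i:ℝ) + 2 * N + 1))) atTop (𝓝 0) := by
    apply squeeze_zero (g := fun N : ℕ => 1 / ((N:ℝ) + 1)) (fun N => by positivity) ?_
      tendsto_one_div_add_atTop_nhds_zero_nat
    intro N
    apply one_div_le_one_div_of_le (by positivity)
    have h1 : (0:ℝ) ≤ i := Nat.cast_nonneg i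
    have h2 : (0:ℝ) ≤ N := Nat.cast_nonneg N
    linarith
  simpa using tendsto_const_nhds.sub this

theorem tsum_aw (i : ℕ) : ∑' n : ℕ, ENNReal.ofReal (aw (i + 2 * n)) =
    ENNReal.ofReal (1 / (4 * ((i:ℝ) + 1))) := by
  rw [← (hasSum_aw i).tsum_eq, ENNReal.ofReal_tsum_of_nonneg (fun n => aw_nonneg _)
    (hasSum_aw i).summable]

theorem sum_aw (j : ℕ) : ∑ m ∈ Finset.range j, aw m =
    3 / 8 - 1 / (4 * ((j:ℝ) + 1)) - 1 / (4 * ((j:ℝ) + 2)) := by
  induction j with
  | zero => norm_num
  | succ j ih =>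
    rw [Finset.sum_range_succ, ih, aw]
    push_cast
    have e1 : (j:ℝ) + 1 + 1 = j + 2 := by ring
    have e2 : (j:ℝ) + 1 + 2 = j + 3 := by ring
    rw [e1, e2]
    ring

/-- The weighted point masses beyond index `i` collect into two. -/
theorem sum_tail {α : Type} [MeasurableSpace α] (i : ℕ) (G : ℕ → α) (v2 v3 : α)
    (h2 : ∀ n, G (i + 2 * n) = v2) (h3 : ∀ n, G (i + 1 + 2 * n) = v3) :
    Measure.sum (fun n : ℕ => pm (aw (i + n)) (G (i + n))) =
      pm (1 / (4 * ((i:ℝ) + 1))) v2 + pm (1 / (4 * ((i:ℝ) + 2))) v3 := by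
  ext S hS
  rw [Measure.sum_apply _ hS, Measure.add_apply,
    ← tsum_even_add_odd ENNReal.summable ENNReal.summable]
  congr 1
  · have : ∀ n : ℕ, (pm (aw (i + 2 * n)) (G (i + 2 * n))) S =
        ENNReal.ofReal (aw (i + 2 * n)) * (Measure.dirac v2) S := by
      intro n
      rw [h2 n, pm, Measure.smul_apply, smul_eq_mul]
    simp only [this]
    rw [ENNReal.tsum_mul_right, tsum_aw, pm, Measure.smul_apply, smul_eq_mul]
  · have : ∀ n : ℕ, (pm (aw (i + (2 * n + 1))) (G (i + (2 * n + 1)))) S =
        ENNReal.ofReal (aw (i + 1 + 2 * n)) * (Measure.dirac v3) S := by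
      intro n
      have e : i + (2 * n + 1) = i + 1 + 2 * n := by ring
      rw [e, h3 n, pm, Measure.smul_apply, smul_eq_mul]
    simp only [this]
    rw [ENNReal.tsum_mul_right, tsum_aw, pm, Measure.smul_apply, smul_eq_mul]
    congr 3
    push_cast
    ring

/-- The weighted point masses up to index `j` collect into one. -/
theorem sum_head {α : Type} [MeasurableSpace α] (j : ℕ) (G : ℕ → α) (v1 : α)
    (h1 : ∀ m < j, G m = v1) :
    ∑ m ∈ Finset.range j, pm (aw m) (G m) = pm (∑ m ∈ Finset.range j, aw m) v1 := by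
  induction j with
  | zero => simp [pm_zero]
  | succ j ih =>
    rw [Finset.sum_range_succ, Finset.sum_range_succ, ih (fun m hm => h1 m (by omega)),
      h1 j (by omega), pm_add (Finset.sum_nonneg fun m _ => aw_nonneg m) (aw_nonneg j)]

theorem sum_split {α : Type} [MeasurableSpace α] (j : ℕ) (G : ℕ → α) :
    Measure.sum (fun n : ℕ => pm (aw n) (G n)) =
      (∑ m ∈ Finset.range j, pm (aw m) (G m)) +
        Measure.sum (fun n : ℕ => pm (aw (j + n)) (G (j + n))) := by
  ext S hS
  rw [Measure.add_apply, Measure.sum_apply _ hS, Measure.sum_apply _ hS,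
    Measure.finsetSum_apply, ← ENNReal.summable.sum_add_tsum_nat_add' (k := j)]
  congr 1
  apply tsum_congr
  intro n
  rw [add_comm j n]

/-- The countable sample space: `ab m` is a particle absorbed from position `c m`; `ot 0` starts
absorbed; the others are never absorbed. -/
inductive Sc : Type
  | ab (m : ℕ) : Sc
  | ot (k : Fin 4) : Sc

instance instMeasSc : MeasurableSpace Sc := ⊤

instance instDiscSc : DiscreteMeasurableSpace Sc := ⟨fun _ => trivial⟩

instance instCountSc : Countable Sc := by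
  let g : Sc → ℕ ⊕ Fin 4 := fun ω => match ω with
    | Sc.ab m => Sum.inl m
    | Sc.ot k => Sum.inr k
  apply Function.Injective.countable (f := g)
  intro x y h
  cases x <;> cases y <;> simp_all [g]

/-- The probability on the sample space. -/
noncomputable def P0 : Measure Sc :=
  Measure.sum (fun m : ℕ => pm (aw m) (Sc.ab m)) + pm (1 / 8) (Sc.ot 0) +
    pm (1 / 4) (Sc.ot 1) + pm (1 / 8) (Sc.ot 2) + pm (1 / 8) (Sc.ot 3)

theorem map_P0 {β : Type} [MeasurableSpace β] (g : Sc → β) :
    P0.map g = Measure.sum (fun m : ℕ => pm (aw m) (g (Sc.ab m))) +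
      pm (1 / 8) (g (Sc.ot 0)) + pm (1 / 4) (g (Sc.ot 1)) +
      pm (1 / 8) (g (Sc.ot 2)) + pm (1 / 8) (g (Sc.ot 3)) := by
  have hg : Measurable g := Measurable.of_discrete
  rw [P0, Measure.map_add _ _ hg, Measure.map_add _ _ hg, Measure.map_add _ _ hg,
    Measure.map_add _ _ hg, Measure.map_sum hg.aemeasurable, map_pm hg, map_pm hg, map_pm hg,
    map_pm hg]
  simp only [map_pm hg]

theorem sum_tail_zero {α : Type} [MeasurableSpace α] (G : ℕ → α) (v2 v3 : α)
    (h2 : ∀ n, G (2 * n) = v2) (h3 : ∀ n, G (1 + 2 * n) = v3) :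
    Measure.sum (fun n : ℕ => pm (aw n) (G n)) = pm (1 / 4) v2 + pm (1 / 8) v3 := by
  have := sum_tail 0 G v2 v3 (by simpa using h2) (by simpa using h3)
  simp only [zero_add] at this
  rw [this]
  norm_num

instance instProbP0 : IsProbabilityMeasure P0 := by
  constructor
  have h : P0 univ = (P0.map (fun _ => (0:ℝ))) univ := by
    rw [Measure.map_apply Measurable.of_discrete MeasurableSet.univ, preimage_univ]
  rw [h, map_P0, sum_tail_zero (fun _ => (0:ℝ)) 0 0 (fun _ => rfl) (fun _ => rfl),
    pm_add (by norm_num) (by norm_num), pm_add (by norm_num) (by norm_num),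
    pm_add (by norm_num) (by norm_num), pm_add (by norm_num) (by norm_num),
    pm_add (by norm_num) (by norm_num), pm_univ]
  norm_num

/-- The parity of the particle (`q` is the parity of the particle which ends at `0`). -/
def par (q : ℕ) : Sc → ℕ
  | Sc.ab m => m
  | Sc.ot k => if k = 1 then q else q + 1

/-- The particle is absorbed strictly before stage `j`. -/
def dead (j : ℕ) : Sc → Prop
  | Sc.ab m => m < j
  | Sc.ot k => k = 0

/-- The position at stage `j`. -/
noncomputable def Y (q j : ℕ) (ω : Sc) : ℝ :=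
  open Classical in if dead j ω then 1 else c (j + (j + par q ω) % 2)

/-- The terminal position. -/
noncomputable def Z : Sc → ℝ
  | Sc.ab _ => 1
  | Sc.ot k => if k = 1 then 0 else if k = 3 then -1 else 1

theorem Y_dead {q j : ℕ} {ω : Sc} (h : dead j ω) : Y q j ω = 1 := by
  rw [Y, if_pos h]

theorem Y_alive {q j : ℕ} {ω : Sc} (h : ¬ dead j ω) : Y q j ω = c (j + (j + par q ω) % 2) := by
  rw [Y, if_neg h]

theorem Y_even {q j : ℕ} {ω : Sc} (h : ¬ dead j ω) (h2 : (j + par q ω) % 2 = 0) :
    Y q j ω = c j := by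
  rw [Y_alive h, h2, add_zero]

theorem Y_odd {q j : ℕ} {ω : Sc} (h : ¬ dead j ω) (h2 : (j + par q ω) % 2 = 1) :
    Y q j ω = c (j + 1) := by
  rw [Y_alive h, h2]

theorem pair_law (q j : ℕ) : P0.map (fun ω => (Y q j ω, Y q (j + 1) ω)) =
    Cpl (c (j + 1)) (c (j + 1)) (c j) (c (j + 2)) := by
  have d0 : ∀ i, dead i (Sc.ot 0) := fun i => rfl
  have d1 : ∀ i, ¬ dead i (Sc.ot 1) := fun i => by simp [dead]
  have d2 : ∀ i, ¬ dead i (Sc.ot 2) := fun i => by simp [dead]
  have d3 : ∀ i, ¬ dead i (Sc.ot 3) := fun i => by simp [dead]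
  have p1 : par q (Sc.ot 1) = q := by simp [par]
  have p2 : par q (Sc.ot 2) = q + 1 := by simp [par]
  have p3 : par q (Sc.ot 3) = q + 1 := by simp [par]
  rw [map_P0, sum_split (j + 1), Finset.sum_range_succ,
    sum_head j _ ((1:ℝ), (1:ℝ)) (fun m hm => by
      rw [Y_dead (show dead j (Sc.ab m) from hm), Y_dead (show dead (j + 1) (Sc.ab m) by
        show m < j + 1; omega)]),
    sum_tail (j + 1) (fun m => (Y q j (Sc.ab m), Y q (j + 1) (Sc.ab m))) (c (j + 1), c (j + 1)) (c j, c (j + 2)) (fun n => by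
      rw [Y_odd (q := q) (j := j) (show ¬ dead j (Sc.ab (j + 1 + 2 * n)) by
          show ¬ (j + 1 + 2 * n < j); omega) (by show (j + (j + 1 + 2 * n)) % 2 = 1; omega),
        Y_even (q := q) (j := j + 1) (show ¬ dead (j + 1) (Sc.ab (j + 1 + 2 * n)) by
          show ¬ (j + 1 + 2 * n < j + 1); omega)
          (by show (j + 1 + (j + 1 + 2 * n)) % 2 = 0; omega)]) (fun n => by
      rw [Y_even (q := q) (j := j) (show ¬ dead j (Sc.ab (j + 1 + 1 + 2 * n)) by
          show ¬ (j + 1 + 1 + 2 * n < j); omega) (by show (j + (j + 1 + 1 + 2 * n)) % 2 = 0; omega),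
        Y_odd (q := q) (j := j + 1) (show ¬ dead (j + 1) (Sc.ab (j + 1 + 1 + 2 * n)) by
          show ¬ (j + 1 + 1 + 2 * n < j + 1); omega)
          (by show (j + 1 + (j + 1 + 1 + 2 * n)) % 2 = 1; omega)])]
  rw [Y_even (q := q) (j := j) (ω := Sc.ab j) (by show ¬ (j < j); omega)
      (by show (j + j) % 2 = 0; omega),
    Y_dead (show dead (j + 1) (Sc.ab j) by show j < j + 1; omega), Y_dead (d0 j),
    Y_dead (d0 (j + 1))]
  have hsum : pm (1 / 4) (Y q j (Sc.ot 1), Y q (j + 1) (Sc.ot 1)) +
      pm (1 / 8) (Y q j (Sc.ot 2), Y q (j + 1) (Sc.ot 2)) +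
      pm (1 / 8) (Y q j (Sc.ot 3), Y q (j + 1) (Sc.ot 3)) =
      pm (1 / 4) (c (j + 1), c (j + 1)) + pm (1 / 4) (c j, c (j + 2)) := by
    have e8 : ∀ x : ℝ × ℝ, pm (1 / 8) x + pm (1 / 8) x = pm (1 / 4) x := by
      intro x
      rw [pm_add (by norm_num) (by norm_num)]
      norm_num
    rcases Nat.mod_two_eq_zero_or_one (j + q) with h | h
    · rw [Y_even (d1 j) (by rw [p1]; omega), Y_odd (d1 (j + 1)) (by rw [p1]; omega),
        Y_odd (d2 j) (by rw [p2]; omega), Y_even (d2 (j + 1)) (by rw [p2]; omega),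
        Y_odd (d3 j) (by rw [p3]; omega), Y_even (d3 (j + 1)) (by rw [p3]; omega), add_assoc, e8,
        add_comm]
    · rw [Y_odd (d1 j) (by rw [p1]; omega), Y_even (d1 (j + 1)) (by rw [p1]; omega),
        Y_even (d2 j) (by rw [p2]; omega), Y_odd (d2 (j + 1)) (by rw [p2]; omega),
        Y_even (d3 j) (by rw [p3]; omega), Y_odd (d3 (j + 1)) (by rw [p3]; omega), add_assoc, e8]
  have r1 : pm (w (c (j + 1))) (c (j + 1), c (j + 1)) =
      pm (1 / (4 * (((j + 1 : ℕ):ℝ) + 1))) (c (j + 1), c (j + 1)) +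
        pm (1 / 4) (c (j + 1), c (j + 1)) := by
    rw [pm_add (by positivity) (by norm_num), w_c, add_comm]
  have r2 : pm (w (c (j + 2))) (c j, c (j + 2)) =
      pm (1 / (4 * (((j + 1 : ℕ):ℝ) + 2))) (c j, c (j + 2)) + pm (1 / 4) (c j, c (j + 2)) := by
    rw [pm_add (by positivity) (by norm_num), w_c, add_comm]
    congr 3
    push_cast
    ring
  have r3 : pm (w (c j) - w (c (j + 2))) (c j, (1:ℝ)) = pm (aw j) (c j, (1:ℝ)) := by
    congr 1
    rw [w_c, w_c, aw]
    push_cast
    have e : (j:ℝ) + 2 + 1 = j + 3 := by ring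
    rw [e]
    ring
  have r4 : pm (1 - w (c (j + 1)) - w (c j)) ((1:ℝ), (1:ℝ)) =
      pm (∑ m ∈ Finset.range j, aw m) ((1:ℝ), (1:ℝ)) + pm (1 / 8) ((1:ℝ), (1:ℝ)) := by
    rw [pm_add (Finset.sum_nonneg fun m _ => aw_nonneg m) (by norm_num), sum_aw, w_c, w_c]
    congr 1
    push_cast
    have e : (j:ℝ) + 1 + 1 = j + 2 := by ring
    rw [e]
    ring
  rw [Cpl, r1, r2, r3, r4, sub_self, pm_zero]
  have hsum' : ∀ A B C E F : Measure (ℝ × ℝ),
      A + B + (C + E) + F + pm (1 / 4) (Y q j (Sc.ot 1), Y q (j + 1) (Sc.ot 1)) +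
      pm (1 / 8) (Y q j (Sc.ot 2), Y q (j + 1) (Sc.ot 2)) +
      pm (1 / 8) (Y q j (Sc.ot 3), Y q (j + 1) (Sc.ot 3)) =
      A + B + (C + E) + F +
        (pm (1 / 4) (c (j + 1), c (j + 1)) + pm (1 / 4) (c j, c (j + 2))) := by
    intro A B C E F
    rw [← hsum]
    abel
  rw [hsum']
  abel

theorem last_law {q j : ℕ} (hq : (j + 1 + q) % 2 = 0) : P0.map (fun ω => (Y q j ω, Z ω)) =
    Cpl (c (j + 1)) 0 (c j) (-1) := by
  have d0 : ∀ i, dead i (Sc.ot 0) := fun i => rfl
  have d1 : ∀ i, ¬ dead i (Sc.ot 1) := fun i => by simp [dead]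
  have d2 : ∀ i, ¬ dead i (Sc.ot 2) := fun i => by simp [dead]
  have d3 : ∀ i, ¬ dead i (Sc.ot 3) := fun i => by simp [dead]
  have p1 : par q (Sc.ot 1) = q := by simp [par]
  have p2 : par q (Sc.ot 2) = q + 1 := by simp [par]
  have p3 : par q (Sc.ot 3) = q + 1 := by simp [par]
  have z0 : Z (Sc.ot 0) = 1 := by simp [Z]
  have z1 : Z (Sc.ot 1) = 0 := by simp [Z]
  have z2 : Z (Sc.ot 2) = 1 := by simp [Z]
  have z3 : Z (Sc.ot 3) = -1 := by simp [Z]
  rw [map_P0, sum_split j,
    sum_head j _ ((1:ℝ), (1:ℝ)) (fun m hm => by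
      rw [Y_dead (show dead j (Sc.ab m) from hm)]; rfl),
    sum_tail j (fun m => (Y q j (Sc.ab m), Z (Sc.ab m))) (c j, (1:ℝ)) (c (j + 1), (1:ℝ)) (fun n => by
      rw [Y_even (q := q) (j := j) (show ¬ dead j (Sc.ab (j + 2 * n)) by
          show ¬ (j + 2 * n < j); omega) (by show (j + (j + 2 * n)) % 2 = 0; omega)]; rfl)
      (fun n => by
      rw [Y_odd (q := q) (j := j) (show ¬ dead j (Sc.ab (j + 1 + 2 * n)) by
          show ¬ (j + 1 + 2 * n < j); omega)
          (by show (j + (j + 1 + 2 * n)) % 2 = 1; omega)]; rfl)]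
  rw [Y_dead (d0 j), z0, z1, z2, z3, Y_odd (d1 j) (by rw [p1]; omega),
    Y_even (d2 j) (by rw [p2]; omega), Y_even (d3 j) (by rw [p3]; omega)]
  have w0 : w 0 = 1 / 4 := by rw [w]; norm_num
  have w1 : w (-1) = 1 / 8 := by rw [w]; norm_num
  have r2 : pm (w (c (j + 1)) - 1 / 4) (c (j + 1), (1:ℝ)) =
      pm (1 / (4 * ((j:ℝ) + 2))) (c (j + 1), (1:ℝ)) := by
    rw [w_c]
    congr 1
    push_cast
    have e : (j:ℝ) + 1 + 1 = j + 2 := by ring
    rw [e]
    ring
  have r3 : pm (w (c j) - 1 / 8) (c j, (1:ℝ)) =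
      pm (1 / (4 * ((j:ℝ) + 1))) (c j, (1:ℝ)) + pm (1 / 8) (c j, (1:ℝ)) := by
    rw [pm_add (by positivity) (by norm_num), w_c]
    congr 1
    ring
  have r4 : pm (1 - w (c (j + 1)) - w (c j)) ((1:ℝ), (1:ℝ)) =
      pm (∑ m ∈ Finset.range j, aw m) ((1:ℝ), (1:ℝ)) + pm (1 / 8) ((1:ℝ), (1:ℝ)) := by
    rw [pm_add (Finset.sum_nonneg fun m _ => aw_nonneg m) (by norm_num), sum_aw, w_c, w_c]
    congr 1
    push_cast
    have e : (j:ℝ) + 1 + 1 = j + 2 := by ring
    rw [e]
    ring
  rw [Cpl, w0, w1, r2, r3, r4]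
  abel

/-! ### Stages -/

/-- The instant at which stage `j` starts. -/
noncomputable def tm (j : ℕ) : ℝ := 1 - (1 / 2) ^ j

/-- The stage of a time `t < 1`. -/
noncomputable def st (t : Time) : ℕ := Nat.log 2 ⌊(1 - (t : ℝ))⁻¹⌋₊

theorem tm_lt_one (j : ℕ) : tm j < 1 := by
  rw [tm]; have : (0:ℝ) < (1 / 2) ^ j := by positivity
  linarith

theorem tm_zero : tm 0 = 0 := by simp [tm]

theorem tm_lt_succ (j : ℕ) : tm j < tm (j + 1) := by
  rw [tm, tm, pow_succ]; have : (0:ℝ) < (1 / 2) ^ j := by positivity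
  linarith

theorem tm_le_iff {t : Time} (ht : (t:ℝ) < 1) (j : ℕ) : tm j ≤ t ↔ j ≤ st t := by
  have h1 : 0 < 1 - (t:ℝ) := by linarith
  have h2 : (1:ℝ) ≤ (1 - (t:ℝ))⁻¹ := by
    rw [one_le_inv₀ h1]; linarith [t.2.1]
  have h3 : ⌊(1 - (t : ℝ))⁻¹⌋₊ ≠ 0 := by
    have : 1 ≤ ⌊(1 - (t : ℝ))⁻¹⌋₊ := Nat.le_floor (by simpa using h2)
    omega
  rw [st, Nat.le_log_iff_pow_le one_lt_two h3, Nat.le_floor_iff (by positivity), tm]
  push_cast
  rw [le_inv_comm₀ (by positivity) h1]
  have : ((2:ℝ) ^ j)⁻¹ = (1 / 2) ^ j := by simp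
  rw [this]
  constructor <;> intro h <;> linarith

theorem st_mono {s t : Time} (h : s ≤ t) (ht : (t:ℝ) < 1) : st s ≤ st t := by
  have h' : (s:ℝ) ≤ t := h
  rw [← tm_le_iff ht]
  exact ((tm_le_iff (h'.trans_lt ht) _).2 le_rfl).trans h'

theorem lt_tm_succ {t : Time} (ht : (t:ℝ) < 1) : (t:ℝ) < tm (st t + 1) := by
  by_contra h
  rw [not_lt, tm_le_iff ht] at h
  omega

theorem tm_st_le {t : Time} (ht : (t:ℝ) < 1) : tm (st t) ≤ t := (tm_le_iff ht _).2 le_rfl

theorem st_eq {t : Time} (ht : (t:ℝ) < 1) {j : ℕ} (h1 : tm j ≤ t) (h2 : (t:ℝ) < tm (j + 1)) :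
    st t = j := by
  rw [tm_le_iff ht] at h1
  have : ¬ (j + 1 ≤ st t) := by
    rw [← tm_le_iff ht]; linarith
  omega

theorem ev_gt {t : Time} {a : ℝ} (h : a < t) : ∀ᶠ s : Time in 𝓝 t, a < s :=
  (continuous_subtype_val.tendsto t).eventually (lt_mem_nhds h)

theorem ev_lt {t : Time} {a : ℝ} (h : t < a) : ∀ᶠ s : Time in 𝓝 t, (s:ℝ) < a :=
  (continuous_subtype_val.tendsto t).eventually (gt_mem_nhds h)

/-- The step path with values `y j` on stage `j` and terminal value `z`. -/
noncomputable def stepPath (y : ℕ → ℝ) (z : ℝ) (t : Time) : ℝ :=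
  open Classical in if (t:ℝ) < 1 then y (st t) else z

theorem stepPath_lt {y : ℕ → ℝ} {z : ℝ} {t : Time} (ht : (t:ℝ) < 1) :
    stepPath y z t = y (st t) := by
  rw [stepPath, if_pos ht]

theorem stepPath_one {y : ℕ → ℝ} {z : ℝ} {t : Time} (ht : ¬ (t:ℝ) < 1) :
    stepPath y z t = z := by
  rw [stepPath, if_neg ht]

theorem cadlag_stepPath {y : ℕ → ℝ} {l : ℝ} (hy : Tendsto y atTop (𝓝 l)) (z : ℝ) :
    IsCadlag (stepPath y z) := by
  intro t
  by_cases ht : (t:ℝ) < 1
  · constructor
    · have h1 : ∀ᶠ s : Time in 𝓝[>] t, stepPath y z s = stepPath y z t := by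
        filter_upwards [nhdsWithin_le_nhds (ev_lt (lt_tm_succ ht)), self_mem_nhdsWithin]
          with s hs hts
        have hs1 : (s:ℝ) < 1 := hs.trans (tm_lt_one _)
        have hts' : (t:ℝ) < s := hts
        rw [stepPath_lt hs1, stepPath_lt ht, st_eq hs1 ((tm_st_le ht).trans hts'.le) hs]
      exact tendsto_const_nhds.congr' (h1.mono fun s hs => hs.symm)
    · rcases lt_or_eq_of_le (tm_st_le ht) with h | h
      · refine ⟨y (st t), ?_⟩
        apply tendsto_const_nhds.congr'
        filter_upwards [nhdsWithin_le_nhds (ev_gt h), self_mem_nhdsWithin] with s hs hst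
        have hst' : (s:ℝ) < t := hst
        have hs1 : (s:ℝ) < 1 := hst'.trans ht
        rw [stepPath_lt hs1, st_eq hs1 hs.le (hst'.trans (lt_tm_succ ht))]
      · rcases Nat.eq_zero_or_pos (st t) with h0 | h0
        · rw [h0, tm_zero] at h
          refine ⟨0, ?_⟩
          have : (𝓝[<] t) = ⊥ := by
            have : Iio t = ∅ := by
              ext s
              simp only [mem_Iio, mem_empty_iff_false, iff_false, not_lt]
              show (t:ℝ) ≤ s
              rw [← h]; exact s.2.1
            rw [this, nhdsWithin_empty]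
          rw [this]
          exact tendsto_bot
        · obtain ⟨i, hi⟩ : ∃ i, st t = i + 1 := ⟨st t - 1, by omega⟩
          refine ⟨y i, ?_⟩
          apply tendsto_const_nhds.congr'
          have h' : tm i < t := by
            rw [← h, hi]; exact tm_lt_succ i
          filter_upwards [nhdsWithin_le_nhds (ev_gt h'), self_mem_nhdsWithin] with s hs hst
          have hst' : (s:ℝ) < t := hst
          have hs1 : (s:ℝ) < 1 := hst'.trans ht
          rw [stepPath_lt hs1, st_eq hs1 hs.le (by rw [← hi, h]; exact hst')]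
  · have ht1 : (t:ℝ) = 1 := le_antisymm t.2.2 (not_lt.1 ht)
    constructor
    · have : (𝓝[>] t) = ⊥ := by
        have : Ioi t = ∅ := by
          ext s
          simp only [mem_Ioi, mem_empty_iff_false, iff_false, not_lt]
          show (s:ℝ) ≤ t
          rw [ht1]; exact s.2.2
        rw [this, nhdsWithin_empty]
      show Tendsto _ (𝓝[>] t) _
      rw [this]
      exact tendsto_bot
    · refine ⟨l, ?_⟩
      have hst : Tendsto st (𝓝[<] t) atTop := by
        rw [tendsto_atTop]
        intro j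
        have hj : tm j < t := by rw [ht1]; exact tm_lt_one j
        filter_upwards [nhdsWithin_le_nhds (ev_gt hj), self_mem_nhdsWithin] with s hs hst
        have hst' : (s:ℝ) < t := hst
        have hs1 : (s:ℝ) < 1 := hst'.trans_eq ht1
        exact (tm_le_iff hs1 j).1 hs.le
      apply (hy.comp hst).congr'
      filter_upwards [self_mem_nhdsWithin] with s hst
      have hst' : (s:ℝ) < t := hst
      have hs1 : (s:ℝ) < 1 := hst'.trans_eq ht1
      rw [stepPath_lt hs1]
      rfl

/-! ### The limiting positions -/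

theorem c_lt_one (j : ℕ) : c j < 1 := by
  rw [c, div_lt_one (by positivity)]
  have : (0:ℝ) ≤ j := Nat.cast_nonneg j
  linarith

theorem c_pos (j : ℕ) : 0 < c j := by rw [c]; positivity

theorem c_anti {i j : ℕ} (h : i < j) : c j < c i := by
  rw [c, c]
  apply one_div_lt_one_div_of_lt (by positivity)
  have : (i:ℝ) < j := by exact_mod_cast h
  linarith

theorem c_inj {i j : ℕ} (h : c i = c j) : i = j := by
  rcases lt_trichotomy i j with h' | h' | h'
  · exact absurd h (c_anti h').ne'
  · exact h'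
  · exact absurd h (c_anti h').ne

theorem c_tendsto : Tendsto c atTop (𝓝 0) := by
  have h := tendsto_one_div_add_atTop_nhds_zero_nat (𝕜 := ℝ)
  have h2 := h.comp (tendsto_add_atTop_nat 1)
  refine h2.congr fun n => ?_
  simp only [Function.comp_apply, c]
  push_cast
  congr 1
  ring

theorem Y_tendsto (q : ℕ) (ω : Sc) : ∃ l, Tendsto (fun j => Y q j ω) atTop (𝓝 l) := by
  by_cases h : ∃ j, dead j ω
  · obtain ⟨j, hj⟩ := h
    refine ⟨1, tendsto_const_nhds.congr' ?_⟩
    filter_upwards [eventually_ge_atTop j] with i hi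
    rw [Y_dead]
    cases ω with
    | ab m => exact lt_of_lt_of_le hj hi
    | ot k => exact hj
  · simp only [not_exists] at h
    refine ⟨0, ?_⟩
    have : Tendsto (fun j => j + (j + par q ω) % 2) atTop atTop :=
      tendsto_atTop_mono (fun j => Nat.le_add_right j _) tendsto_id
    refine (c_tendsto.comp this).congr fun j => ?_
    rw [Y_alive (h j)]
    rfl

theorem Y_comp_tendsto (q : ℕ) (ω : Sc) (r : ℕ → ℕ) (hr : r = id ∨ ∃ J, r = fun j => min j J) :
    ∃ l, Tendsto (fun j => Y q (r j) ω) atTop (𝓝 l) := by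
  rcases hr with rfl | ⟨J, rfl⟩
  · exact Y_tendsto q ω
  · refine ⟨Y q J ω, tendsto_const_nhds.congr' ?_⟩
    filter_upwards [eventually_ge_atTop J] with i hi
    rw [min_eq_right hi]

/-- The path of the particle `ω` when the stages are capped at `J`. -/
noncomputable def cpath (q J : ℕ) (ω : Sc) : D :=
  ⟨stepPath (fun j => Y q (min j J) ω) (Z ω), cadlag_stepPath
    (Y_comp_tendsto q ω _ (Or.inr ⟨J, rfl⟩)).choose_spec _⟩

/-- The limiting path of the particle `ω`. -/
noncomputable def lpath (q : ℕ) (ω : Sc) : D :=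
  ⟨stepPath (fun j => Y q j ω) (Z ω), cadlag_stepPath (Y_tendsto q ω).choose_spec _⟩

theorem cpath_tendsto (q : ℕ) (ω : Sc) (J : ℕ → ℕ) (hJ : Tendsto J atTop atTop) :
    Tendsto (fun p => cpath q (J p) ω) atTop (𝓝 (lpath q ω)) := by
  rw [tendsto_nhds]
  intro U hU hf
  obtain ⟨ε, hε, h⟩ := (isOpen_D_iff U).1 hU _ hf
  obtain ⟨l, hl⟩ := Y_tendsto q ω
  obtain ⟨N, hN⟩ := Metric.cauchySeq_iff.1 hl.cauchySeq ε hε
  filter_upwards [hJ.eventually (eventually_ge_atTop N)] with p hp
  apply h
  refine ⟨OrderIso.refl _, fun t => by simpa using hε, fun t => ?_⟩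
  show |stepPath (fun j => Y q (min j (J p)) ω) (Z ω) t - stepPath (fun j => Y q j ω) (Z ω) t| < ε
  by_cases ht : (t:ℝ) < 1
  · rw [stepPath_lt ht, stepPath_lt ht]
    rcases le_total (st t) (J p) with h' | h'
    · rw [min_eq_left h', sub_self, abs_zero]; exact hε
    · rw [min_eq_right h', ← Real.dist_eq]
      exact hN _ hp _ (hp.trans h')
  · rw [stepPath_one ht, stepPath_one ht, sub_self, abs_zero]; exact hε

theorem Y_dead_of_eq {q j : ℕ} {ω : Sc} (h : Y q j ω = 1) : dead j ω := by
  by_contra hd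
  rw [Y_alive hd] at h
  exact (c_lt_one _).ne h

theorem dead_mono {i j : ℕ} (hij : i ≤ j) {ω : Sc} (h : dead i ω) : dead j ω := by
  cases ω with
  | ab m => exact lt_of_lt_of_le h hij
  | ot k => exact h

theorem Z_dead {j : ℕ} {ω : Sc} (h : dead j ω) : Z ω = 1 := by
  cases ω with
  | ab m => rfl
  | ot k =>
    have : k = 0 := h
    subst this
    simp [Z]

theorem isMarkov_gen (q : ℕ) (r : ℕ → ℕ) (hr : Monotone r) (x : Sc → D)
    (hx : ∀ ω t, X t (x ω) = stepPath (fun j => Y q (r j) ω) (Z ω) t) (P : ProbabilityMeasure D)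
    (hP : (P : Measure D) = P0.map x) : IsMarkov P := by
  apply isMarkov_of_det P0 x P hP 1
  · intro s t hst ω ω' he hne u hu
    have hs1 : (s:ℝ) < 1 := lt_of_lt_of_le hst t.2.2
    have hu1 : (u:ℝ) < 1 := lt_of_le_of_lt hu hs1
    rw [hx, hx, stepPath_lt hs1, stepPath_lt hs1] at he
    rw [hx, stepPath_lt hs1] at hne
    rw [hx, hx, stepPath_lt hu1, stepPath_lt hu1]
    have hd : ¬ dead (r (st s)) ω := fun h => hne (Y_dead h)
    have hd' : ¬ dead (r (st s)) ω' := fun h => hne (he.trans (Y_dead h))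
    have hru : r (st u) ≤ r (st s) := hr (st_mono hu hs1)
    have hdu : ¬ dead (r (st u)) ω := fun h => hd (dead_mono hru h)
    have hdu' : ¬ dead (r (st u)) ω' := fun h => hd' (dead_mono hru h)
    rw [Y_alive hd, Y_alive hd'] at he
    have := c_inj he
    rw [Y_alive hdu, Y_alive hdu']
    congr 1
    omega
  · intro s t hst ω ω' h1 h2
    have hs1 : (s:ℝ) < 1 := lt_of_lt_of_le hst t.2.2
    rw [hx, stepPath_lt hs1] at h1 h2
    have hd := Y_dead_of_eq h1
    have hd' := Y_dead_of_eq h2
    rw [hx, hx]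
    by_cases ht : (t:ℝ) < 1
    · have hrt : r (st s) ≤ r (st t) := hr (st_mono hst.le ht)
      rw [stepPath_lt ht, stepPath_lt ht, Y_dead (dead_mono hrt hd), Y_dead (dead_mono hrt hd')]
    · rw [stepPath_one ht, stepPath_one ht, Z_dead hd, Z_dead hd']

/-- The law of the capped paths. -/
noncomputable def capLaw (q J : ℕ) : ProbabilityMeasure D :=
  ⟨P0.map (cpath q J), Measure.isProbabilityMeasure_map (Measurable.of_discrete).aemeasurable⟩

/-- The limit law. -/
noncomputable def limLaw (q : ℕ) : ProbabilityMeasure D :=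
  ⟨P0.map (lpath q), Measure.isProbabilityMeasure_map (Measurable.of_discrete).aemeasurable⟩

theorem isMarkov_cap (q J : ℕ) : IsMarkov (capLaw q J) :=
  isMarkov_gen q (fun j => min j J) (fun _ _ h => min_le_min_right _ h) (cpath q J)
    (fun _ _ => rfl) _ rfl

theorem isMarkov_lim (q : ℕ) : IsMarkov (limLaw q) :=
  isMarkov_gen q id monotone_id (lpath q) (fun _ _ => rfl) _ rfl

theorem capLaw_tendsto (q : ℕ) (J : ℕ → ℕ) (hJ : Tendsto J atTop atTop) :
    Tendsto (fun p => capLaw q (J p)) atTop (𝓝 (limLaw q)) := by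
  rw [ProbabilityMeasure.tendsto_iff_forall_integral_tendsto]
  intro F
  have e1 : ∀ p, ∫ f, F f ∂(capLaw q (J p) : Measure D) = ∫ ω, F (cpath q (J p) ω) ∂P0 := by
    intro p
    exact integral_map (Measurable.of_discrete).aemeasurable
      F.continuous.measurable.aestronglyMeasurable
  have e2 : ∫ f, F f ∂(limLaw q : Measure D) = ∫ ω, F (lpath q ω) ∂P0 :=
    integral_map (Measurable.of_discrete).aemeasurable
      F.continuous.measurable.aestronglyMeasurable
  simp only [e1, e2]
  apply tendsto_integral_of_dominated_convergence (fun _ => ‖F‖)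
  · intro p
    exact (Measurable.of_discrete).aestronglyMeasurable
  · exact integrable_const _
  · intro p
    exact Filter.Eventually.of_forall fun ω => F.norm_coe_le_norm _
  · exact Filter.Eventually.of_forall fun ω =>
      (F.continuous.tendsto _).comp (cpath_tendsto q ω J hJ)

/-! ### The peacock -/

/-- The peacock. -/
noncomputable def pk (t : Time) : Measure ℝ :=
  open Classical in if (t:ℝ) < 1 then M (c (st t + 1)) (c (st t)) else M 0 (-1)

theorem pk_lt {t : Time} (ht : (t:ℝ) < 1) : pk t = M (c (st t + 1)) (c (st t)) := by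
  rw [pk, if_pos ht]

theorem pk_one {t : Time} (ht : ¬ (t:ℝ) < 1) : pk t = M 0 (-1) := by
  rw [pk, if_neg ht]

theorem w_c_sum (j : ℕ) : w (c (j + 1)) + w (c j) ≤ 1 := by
  have h1 := w_mono (c_anti (Nat.lt_succ_self j)).le (c_lt_one j)
  rw [w_c, w_c]
  have h2 : (0:ℝ) ≤ j := Nat.cast_nonneg j
  have h3 : 1 / (4 * ((j:ℝ) + 1)) ≤ 1 / 4 := by
    apply one_div_le_one_div_of_le (by norm_num); linarith
  have h4 : 1 / (4 * (((j + 1 : ℕ) : ℝ) + 1)) ≤ 1 / 8 := by
    apply one_div_le_one_div_of_le (by norm_num); push_cast; linarith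
  linarith

theorem M_comm (a b : ℝ) : M a b = M b a := by
  rw [M, M, add_comm (pm (w a) a)]
  congr 2
  ring

theorem convexLE_M {a a' b b' : ℝ} (h1 : a' ≤ a) (h2 : a < 1) (h3 : b' ≤ b) (h4 : b < 1)
    (h : w a + w b ≤ 1) : ConvexLE (M a b) (M a' b') := by
  intro f hf _ _
  have m1 := w_mono h1 h2
  have m2 := w_mono h3 h4
  rw [integral_M h2 h4 h, integral_M (h1.trans_lt h2) (h3.trans_lt h4) (by linarith)]
  have s1 := split_le h1 h2 hf
  have s2 := split_le h3 h4 hf
  linarith

theorem w_zero : w 0 = 1 / 4 := by rw [w]; norm_num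

theorem w_neg_one : w (-1) = 1 / 8 := by rw [w]; norm_num

theorem isPeacock_pk : IsPeacock pk := by
  refine ⟨?_, ?_, ?_⟩
  · intro t
    by_cases ht : (t:ℝ) < 1
    · rw [pk_lt ht]
      exact isProb_M (c_lt_one _) (c_lt_one _) (w_c_sum _)
    · rw [pk_one ht]
      exact isProb_M (by norm_num) (by norm_num) (by rw [w_zero, w_neg_one]; norm_num)
  · intro t
    by_cases ht : (t:ℝ) < 1
    · rw [pk_lt ht]
      exact integrable_M _ _ _
    · rw [pk_one ht]
      exact integrable_M _ _ _
  · intro s t hst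
    by_cases ht : (t:ℝ) < 1
    · have hs : (s:ℝ) < 1 := lt_of_le_of_lt hst ht
      rw [pk_lt ht, pk_lt hs]
      have hle := st_mono hst ht
      have hc : ∀ i j : ℕ, i ≤ j → c j ≤ c i := by
        intro i j hij
        rcases eq_or_lt_of_le hij with h | h
        · rw [h]
        · exact (c_anti h).le
      exact convexLE_M (hc _ _ (by omega)) (c_lt_one _) (hc _ _ hle) (c_lt_one _) (w_c_sum _)
    · rw [pk_one ht]
      by_cases hs : (s:ℝ) < 1
      · rw [pk_lt hs]
        exact convexLE_M (c_pos _).le (c_lt_one _) (by linarith [c_pos (st s)]) (c_lt_one _)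
          (w_c_sum _)
      · rw [pk_one hs]
        intro f _ _ _
        exact le_rfl

theorem kantorovich_self (μ : Measure ℝ) : kantorovich μ μ = 0 := by
  have hm : Measurable (fun x : ℝ => (x, x)) := by fun_prop
  apply le_antisymm _ bot_le
  have h1 : (μ.map (fun x => (x, x))).map Prod.fst = μ := by
    rw [Measure.map_map measurable_fst hm]
    exact Measure.map_id
  have h2 : (μ.map (fun x => (x, x))).map Prod.snd = μ := by
    rw [Measure.map_map measurable_snd hm]
    exact Measure.map_id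
  refine (iInf₂_le (μ.map (fun x => (x, x))) ⟨h1, h2⟩).trans ?_
  rw [lintegral_map (by fun_prop) hm]
  simp

theorem isRightCont_pk : IsRightCont pk := by
  intro t
  by_cases ht : (t:ℝ) < 1
  · apply tendsto_const_nhds.congr'
    filter_upwards [nhdsWithin_le_nhds (ev_lt (lt_tm_succ ht)), self_mem_nhdsWithin]
      with s hs hts
    have hs1 : (s:ℝ) < 1 := hs.trans (tm_lt_one _)
    have hts' : (t:ℝ) < s := hts
    rw [pk_lt hs1, pk_lt ht, st_eq hs1 ((tm_st_le ht).trans hts'.le) hs, kantorovich_self]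
  · have : (𝓝[>] t) = ⊥ := by
      have : Ioi t = ∅ := by
        ext s
        simp only [mem_Ioi, mem_empty_iff_false, iff_false, not_lt]
        show (s:ℝ) ≤ t
        exact s.2.2.trans (not_lt.1 ht)
      rw [this, nhdsWithin_empty]
    rw [this]
    exact tendsto_bot

/-! ### Dyadic partitions -/

/-- The dyadic partition of level `J`. -/
noncomputable def dyadic (J : ℕ) : Partition where
  Q := 2 ^ J
  pt k := ⟨(k : ℕ) / (2:ℝ) ^ J, by
    constructor
    · positivity
    · rw [div_le_one (by positivity)]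
      have : (k : ℕ) ≤ 2 ^ J := Nat.lt_succ_iff.1 k.2
      exact_mod_cast this⟩
  mono := by
    intro k l hkl
    show ((k : ℕ) : ℝ) / (2:ℝ) ^ J < ((l : ℕ) : ℝ) / (2:ℝ) ^ J
    have : ((k : ℕ) : ℝ) < ((l : ℕ) : ℝ) := by exact_mod_cast hkl
    gcongr
  first := by simp
  last := by simp

theorem dyadic_castSucc (J : ℕ) (k : Fin (dyadic J).Q) :
    (((dyadic J).pt k.castSucc : Time) : ℝ) = (k : ℕ) / (2:ℝ) ^ J := rfl

theorem dyadic_succ (J : ℕ) (k : Fin (dyadic J).Q) :
    (((dyadic J).pt k.succ : Time) : ℝ) = ((k : ℕ) + 1) / (2:ℝ) ^ J := by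
  show (((k : ℕ) + 1 : ℕ) : ℝ) / (2:ℝ) ^ J = _
  push_cast
  rfl

theorem tm_grid {j J : ℕ} (h : j ≤ J) : ∃ N : ℕ, tm j = (N:ℝ) / (2:ℝ) ^ J := by
  obtain ⟨i, rfl⟩ := Nat.exists_eq_add_of_le h
  refine ⟨2 ^ (j + i) - 2 ^ i, ?_⟩
  rw [Nat.cast_sub (Nat.pow_le_pow_right (by norm_num) (by omega)), tm]
  push_cast
  rw [pow_add]
  have h1 : (2:ℝ) ^ j ≠ 0 := by positivity
  have h2 : (2:ℝ) ^ i ≠ 0 := by positivity
  rw [one_div, inv_pow]
  field_simp

theorem tm_le_grid {j J k : ℕ} (h : j ≤ J) {x : ℝ} (h1 : tm j ≤ x)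
    (h2 : x < ((k:ℝ) + 1) / (2:ℝ) ^ J) : tm j ≤ (k:ℝ) / (2:ℝ) ^ J := by
  obtain ⟨N, hN⟩ := tm_grid h
  rw [hN] at h1 ⊢
  have h3 : (N:ℝ) / (2:ℝ) ^ J < ((k:ℝ) + 1) / (2:ℝ) ^ J := h1.trans_lt h2
  rw [div_lt_div_iff_of_pos_right (by positivity)] at h3
  have h4 : N < k + 1 := by exact_mod_cast h3
  have h5 : (N:ℝ) ≤ k := by exact_mod_cast Nat.lt_succ_iff.1 h4
  gcongr

theorem grid_le_tm {j J k : ℕ} (h : j ≤ J) (h1 : (k:ℝ) / (2:ℝ) ^ J < tm j) :
    ((k:ℝ) + 1) / (2:ℝ) ^ J ≤ tm j := by
  obtain ⟨N, hN⟩ := tm_grid h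
  rw [hN] at h1 ⊢
  rw [div_lt_div_iff_of_pos_right (by positivity)] at h1
  have h4 : k < N := by exact_mod_cast h1
  have h5 : (k:ℝ) + 1 ≤ N := by exact_mod_cast h4
  gcongr

theorem X_cpath_lt {q J : ℕ} {ω : Sc} {t : Time} (ht : (t:ℝ) < 1) :
    X t (cpath q J ω) = Y q (min (st t) J) ω :=
  stepPath_lt (y := fun j => Y q (min j J) ω) (z := Z ω) ht

theorem X_cpath_one {q J : ℕ} {ω : Sc} {t : Time} (ht : ¬ (t:ℝ) < 1) :
    X t (cpath q J ω) = Z ω :=
  stepPath_one (y := fun j => Y q (min j J) ω) (z := Z ω) ht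

theorem min_st_eq {J : ℕ} {s t : Time} (hst : s ≤ t) (ht : (t:ℝ) < 1)
    (h : ∀ j ≤ J, tm j ≤ t → tm j ≤ s) : min (st t) J = min (st s) J := by
  have hs : (s:ℝ) < 1 := lt_of_le_of_lt hst ht
  apply le_antisymm
  · refine le_min ?_ (min_le_right _ _)
    rw [← tm_le_iff hs]
    exact h _ (min_le_right _ _) ((tm_le_iff ht _).2 (min_le_left _ _))
  · exact min_le_min_right _ (st_mono hst ht)

theorem const_of_countable {f : D} {s t : Time}
    (h : ∀ u ∈ {u : Time | ∃ r : ℚ, (u:ℝ) = r}, u ∈ Ico s t → X u f = X s f) :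
    ∀ u ∈ Ico s t, X u f = X s f := by
  intro v hv
  have hc : Tendsto f.1 (𝓝[>] v) (𝓝 (f.1 v)) := (f.2 v).1
  refine tendsto_nhds_unique_of_frequently_eq hc (tendsto_const_nhds (x := X s f)) ?_
  rw [frequently_iff]
  intro U hU
  obtain ⟨w', hw', hsub⟩ := (mem_nhdsGT_iff_exists_Ioo_subset' hv.2).1 hU
  have h1 : (v:ℝ) < min (w':ℝ) (t:ℝ) := lt_min hw' hv.2
  obtain ⟨r, hr1, hr2⟩ := exists_rat_btwn h1
  have hr3 : (r:ℝ) < w' := hr2.trans_le (min_le_left _ _)
  have hr4 : (r:ℝ) < t := hr2.trans_le (min_le_right _ _)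
  let u : Time := ⟨(r:ℝ), by
    constructor
    · exact v.2.1.trans hr1.le
    · exact hr4.le.trans t.2.2⟩
  refine ⟨u, hsub ⟨hr1, hr3⟩, ?_⟩
  exact h u ⟨r, rfl⟩ ⟨hv.1.trans (le_of_lt hr1), hr4⟩

theorem ae_capLaw {q J : ℕ} {p : D → Prop} (hp : MeasurableSet {f | p f})
    (h : ∀ ω, p (cpath q J ω)) : ∀ᵐ f ∂(capLaw q J : Measure D), p f := by
  show ∀ᵐ f ∂(P0.map (cpath q J)), p f
  rw [ae_map_iff (Measurable.of_discrete).aemeasurable hp]
  exact Filter.Eventually.of_forall h

theorem map_capLaw (q J : ℕ) (s t : Time) :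
    (capLaw q J : Measure D).map (fun f => (X s f, X t f)) =
      P0.map (fun ω => (X s (cpath q J ω), X t (cpath q J ω))) := by
  show (P0.map (cpath q J)).map (fun f => (X s f, X t f)) = _
  rw [Measure.map_map ((measurable_X s).prodMk (measurable_X t)) Measurable.of_discrete]
  rfl

theorem c_curtain (j : ℕ) : IsCurtain (M (c (j + 1)) (c j)) (M (c (j + 2)) (c (j + 1)))
    (Cpl (c (j + 1)) (c (j + 1)) (c j) (c (j + 2))) := by
  rw [M_comm (c (j + 2))]
  exact curtain_Cpl (c_anti (by omega)) le_rfl (c_anti (by omega)) (c_lt_one _) (w_c_sum _)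

theorem last_curtain (j : ℕ) : IsCurtain (M (c (j + 1)) (c j)) (M 0 (-1))
    (Cpl (c (j + 1)) 0 (c j) (-1)) :=
  curtain_Cpl (by norm_num) (c_pos _).le (c_anti (by omega)) (c_lt_one _) (w_c_sum _)

theorem law_Y (q j : ℕ) : P0.map (fun ω => Y q j ω) = M (c (j + 1)) (c j) := by
  have h := (c_curtain j).fst
  rw [← pair_law q j, Measure.map_map measurable_fst Measurable.of_discrete] at h
  exact h

theorem isCurtainLaw_cap {q J : ℕ} (hq : (J + 1 + q) % 2 = 0) :
    IsCurtainLaw pk (dyadic J) (capLaw q J) := by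
  refine ⟨isMarkov_cap q J, ?_, ?_⟩
  · intro k
    have hts : (dyadic J).pt k.castSucc ≤ (dyadic J).pt k.succ :=
      ((dyadic J).mono (Fin.castSucc_lt_succ)).le
    have hS : {u : Time | ∃ r : ℚ, (u:ℝ) = r}.Countable := by
      have : {u : Time | ∃ r : ℚ, (u:ℝ) = r} = Subtype.val ⁻¹' (range (fun r : ℚ => (r:ℝ))) := by
        ext u
        simp only [Set.mem_ofPred_eq, mem_preimage, mem_range]
        constructor
        · rintro ⟨r, hr⟩; exact ⟨r, hr.symm⟩
        · rintro ⟨r, hr⟩; exact ⟨r, hr.symm⟩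
      rw [this]
      exact (countable_range _).preimage Subtype.val_injective
    have key : ∀ᵐ f ∂(capLaw q J : Measure D), ∀ u ∈ {u : Time | ∃ r : ℚ, (u:ℝ) = r},
        u ∈ Ico ((dyadic J).pt k.castSucc) ((dyadic J).pt k.succ) →
          X u f = X ((dyadic J).pt k.castSucc) f := by
      rw [ae_ball_iff hS]
      intro u _
      by_cases hu : u ∈ Ico ((dyadic J).pt k.castSucc) ((dyadic J).pt k.succ)
      · refine (ae_capLaw (measurableSet_eq_fun (measurable_X u) (measurable_X _)) ?_).mono
          fun f hf _ => hf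
        intro ω
        have hu1 : (u:ℝ) < 1 := lt_of_lt_of_le hu.2 ((dyadic J).pt k.succ).2.2
        have hs1 : (((dyadic J).pt k.castSucc : Time) : ℝ) < 1 := lt_of_le_of_lt hu.1 hu1
        rw [X_cpath_lt hu1, X_cpath_lt hs1, min_st_eq hu.1 hu1]
        intro j hj hjt
        have h2 : (u:ℝ) < (((dyadic J).pt k.succ : Time) : ℝ) := hu.2
        rw [dyadic_succ] at h2
        rw [dyadic_castSucc]
        exact tm_le_grid hj hjt h2
      · exact Filter.Eventually.of_forall fun f hf => absurd hf hu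
    filter_upwards [key] with f hf
    exact const_of_countable hf
  · intro k
    rw [map_capLaw]
    have hkJ : (k : ℕ) < 2 ^ J := k.2
    have hpow : (0:ℝ) < (2:ℝ) ^ J := by positivity
    have hs1 : (((dyadic J).pt k.castSucc : Time) : ℝ) < 1 := by
      rw [dyadic_castSucc, div_lt_one hpow]
      exact_mod_cast hkJ
    have hst : (dyadic J).pt k.castSucc ≤ (dyadic J).pt k.succ :=
      ((dyadic J).mono (Fin.castSucc_lt_succ)).le
    have htmJ : tm J = ((2:ℝ) ^ J - 1) / (2:ℝ) ^ J := by
      rw [tm, one_div, inv_pow]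
      field_simp
    by_cases ht1 : (((dyadic J).pt k.succ : Time) : ℝ) < 1
    · have hk1 : ((k : ℕ) : ℝ) + 1 < (2:ℝ) ^ J := by
        rw [dyadic_succ, div_lt_one hpow] at ht1
        exact ht1
      have hk2 : ((k : ℕ) : ℝ) + 1 ≤ (2:ℝ) ^ J - 1 := by
        have : (k : ℕ) + 1 < 2 ^ J := by exact_mod_cast hk1
        have h3 : (k : ℕ) + 1 + 1 ≤ 2 ^ J := this
        have h4 : ((k : ℕ) : ℝ) + 1 + 1 ≤ (2:ℝ) ^ J := by exact_mod_cast h3
        linarith
      have htJ : (((dyadic J).pt k.succ : Time) : ℝ) ≤ tm J := by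
        rw [dyadic_succ, htmJ]
        gcongr
      have hsJ : (((dyadic J).pt k.castSucc : Time) : ℝ) < tm J := by
        refine lt_of_lt_of_le ?_ htJ
        rw [dyadic_succ, dyadic_castSucc]
        gcongr
        linarith
      have hstJ : st ((dyadic J).pt k.castSucc) < J := by
        by_contra h
        rw [not_lt, ← tm_le_iff hs1] at h
        linarith
      have httJ : st ((dyadic J).pt k.succ) ≤ J := by
        have := tm_lt_succ J
        by_contra h
        rw [not_le, ← Nat.succ_le_iff, Nat.succ_eq_add_one, ← tm_le_iff ht1] at h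
        linarith
      have hnext : st ((dyadic J).pt k.succ) ≤ st ((dyadic J).pt k.castSucc) + 1 := by
        have h1 := lt_tm_succ hs1
        rw [dyadic_castSucc] at h1
        have h2 := grid_le_tm (J := J) (by omega) h1
        rw [← dyadic_succ] at h2
        by_contra h
        rw [not_le, ← Nat.succ_le_iff, Nat.succ_eq_add_one, ← tm_le_iff ht1] at h
        have := tm_lt_succ (st ((dyadic J).pt k.castSucc) + 1)
        linarith
      have hmono := st_mono hst ht1
      rw [pk_lt hs1, pk_lt ht1]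
      simp only [X_cpath_lt hs1, X_cpath_lt ht1]
      rw [min_eq_left hstJ.le, min_eq_left httJ]
      rcases Nat.lt_or_ge (st ((dyadic J).pt k.castSucc)) (st ((dyadic J).pt k.succ)) with h | h
      · have he : st ((dyadic J).pt k.succ) = st ((dyadic J).pt k.castSucc) + 1 := by omega
        rw [he, pair_law]
        exact c_curtain _
      · have he : st ((dyadic J).pt k.succ) = st ((dyadic J).pt k.castSucc) := by omega
        rw [he]
        have hd : P0.map (fun ω => (Y q (st ((dyadic J).pt k.castSucc)) ω,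
            Y q (st ((dyadic J).pt k.castSucc)) ω)) =
            (P0.map (fun ω => Y q (st ((dyadic J).pt k.castSucc)) ω)).map (fun x => (x, x)) := by
          rw [Measure.map_map (by fun_prop) Measurable.of_discrete]
          rfl
        rw [hd, law_Y]
        exact curtain_id (c_lt_one _) (c_lt_one _) (w_c_sum _)
    · have hk1 : (2:ℝ) ^ J ≤ ((k : ℕ) : ℝ) + 1 := by
        rw [dyadic_succ, div_lt_one hpow, not_lt] at ht1
        exact ht1
      have hk2 : ((k : ℕ) : ℝ) = (2:ℝ) ^ J - 1 := by
        apply le_antisymm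
        · have h3 : (k : ℕ) + 1 ≤ 2 ^ J := hkJ
          have h4 : ((k : ℕ) : ℝ) + 1 ≤ (2:ℝ) ^ J := by exact_mod_cast h3
          linarith
        · linarith
      have hs : (((dyadic J).pt k.castSucc : Time) : ℝ) = tm J := by
        rw [dyadic_castSucc, hk2, htmJ]
      have hstJ : st ((dyadic J).pt k.castSucc) = J :=
        st_eq hs1 hs.ge (by rw [hs]; exact tm_lt_succ J)
      rw [pk_lt hs1, pk_one ht1]
      simp only [X_cpath_lt hs1, X_cpath_one ht1]
      rw [hstJ, min_self, last_law hq]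
      exact last_curtain J

theorem limLaw_mem (q : ℕ) (J : ℕ → ℕ) (hJ : Tendsto J atTop atTop)
    (hq : ∀ p, (J p + 1 + q) % 2 = 0) : limLaw q ∈ LimCurt pk := by
  refine ⟨fun p => dyadic (J p), fun p => capLaw q (J p), ?_, fun p => isCurtainLaw_cap (hq p),
    capLaw_tendsto q J hJ⟩
  intro ε hε
  have h1 : Tendsto (fun p => ((1:ℝ) / 2) ^ (J p)) atTop (𝓝 0) :=
    (tendsto_pow_atTop_nhds_zero_of_lt_one (by norm_num) (by norm_num)).comp hJ
  filter_upwards [h1.eventually (gt_mem_nhds hε)] with p hp k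
  rw [dyadic_succ, dyadic_castSucc]
  have : (((k : ℕ) : ℝ) + 1) / (2:ℝ) ^ (J p) - ((k : ℕ) : ℝ) / (2:ℝ) ^ (J p) =
      ((1:ℝ) / 2) ^ (J p) := by
    rw [← sub_div, one_div, inv_pow, inv_eq_one_div]
    congr 1
    ring
  rw [this]
  exact hp

theorem limLaw_ne : limLaw 1 ≠ limLaw 0 := by
  intro h
  have hE : MeasurableSet {f : D | X (⟨0, by simp⟩ : Time) f = c 1 ∧
      X (⟨1, by simp⟩ : Time) f = 0} :=
    ((measurable_X _) (measurableSet_singleton (c 1))).inter
      ((measurable_X _) (measurableSet_singleton (0:ℝ)))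
  have h0 : (((⟨0, by simp⟩ : Time) : Time) : ℝ) < 1 := by norm_num
  have h1 : ¬ (((⟨1, by simp⟩ : Time) : Time) : ℝ) < 1 := by norm_num
  have hst : st (⟨0, by simp⟩ : Time) = 0 := by
    apply st_eq h0
    · rw [tm_zero]
    · show (0:ℝ) < _
      rw [tm]; norm_num
  have hX0 : ∀ q ω, X (⟨0, by simp⟩ : Time) (lpath q ω) = Y q 0 ω := by
    intro q ω
    show stepPath (fun j => Y q j ω) (Z ω) _ = _
    rw [stepPath_lt h0, hst]
  have hX1 : ∀ q ω, X (⟨1, by simp⟩ : Time) (lpath q ω) = Z ω := by
    intro q ω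
    show stepPath (fun j => Y q j ω) (Z ω) _ = _
    rw [stepPath_one h1]
  have e : ∀ q, (limLaw q : Measure D) {f : D | X (⟨0, by simp⟩ : Time) f = c 1 ∧
      X (⟨1, by simp⟩ : Time) f = 0} = P0 {ω | Y q 0 ω = c 1 ∧ Z ω = 0} := by
    intro q
    show (P0.map (lpath q)) _ = _
    rw [Measure.map_apply Measurable.of_discrete hE]
    congr 1
    ext ω
    simp only [mem_preimage, Set.mem_ofPred_eq, hX0, hX1]
  have hz : P0 {ω | Y 0 0 ω = c 1 ∧ Z ω = 0} = 0 := by
    have : {ω | Y 0 0 ω = c 1 ∧ Z ω = 0} = ∅ := by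
      ext ω
      simp only [Set.mem_ofPred_eq, mem_empty_iff_false, iff_false, not_and]
      intro hY hZ
      cases ω with
      | ab m => simp [Z] at hZ
      | ot k =>
        have hk : k = 1 := by
          fin_cases k <;> simp [Z] at hZ ⊢
        subst hk
        rw [Y_even (by simp [dead]) (by simp [par])] at hY
        exact absurd (c_inj hY) (by norm_num)
    rw [this, measure_empty]
  have hpos : 0 < P0 {ω | Y 1 0 ω = c 1 ∧ Z ω = 0} := by
    have hmem : Sc.ot 1 ∈ {ω | Y 1 0 ω = c 1 ∧ Z ω = 0} := by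
      refine ⟨?_, by simp [Z]⟩
      rw [Y_odd (by simp [dead]) (by simp [par])]
    have hle : (pm (1 / 4) (Sc.ot 1)) ≤ P0 := by
      rw [P0]
      refine Measure.le_add_right (Measure.le_add_right (Measure.le_add_left le_rfl))
    refine lt_of_lt_of_le ?_ (hle _)
    rw [pm, Measure.smul_apply, Measure.dirac_apply_of_mem hmem]
    simp
  have := e 1
  rw [h, e 0, hz] at this
  exact absurd this hpos.ne

/-- There is a right-continuous peacock with two different Markovian limit curtain laws. -/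
theorem result : ∃ μ : Time → Measure ℝ, IsPeacock μ ∧ IsRightCont μ ∧
    ∃ P ∈ LimCurt μ, ∃ R ∈ LimCurt μ, P ≠ R ∧ IsMarkov P ∧ IsMarkov R := by
  refine ⟨pk, isPeacock_pk, isRightCont_pk, limLaw 1, ?_, limLaw 0, ?_, limLaw_ne,
    isMarkov_lim 1, isMarkov_lim 0⟩
  · refine limLaw_mem 1 (fun p => 2 * p) ?_ (fun p => by omega)
    exact tendsto_atTop_mono (fun p => by show p ≤ 2 * p; omega) tendsto_id
  · refine limLaw_mem 0 (fun p => 2 * p + 1) ?_ (fun p => by omega)
    exact tendsto_atTop_mono (fun p => by show p ≤ 2 * p + 1; omega) tendsto_id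

end Pool.Agent.Results.MP_eb43e0_pr.TwoMarkovLimits
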